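import Pool.Agent.N208.LC.Stm

/-!
# LC/CORE: the first fundamental theorem in low degree, on words (written by helper530)

Every function of words which is invariant under the operators `E_pq` of all places is a combination
of products of contractions, if the number of pairs is less than the number of positions.
-/

set_option autoImplicit false
set_option linter.unusedSectionVars false

open Module Finset

noncomputable section

namespace Pool.Agent.N530.LC

open Pool.Agent.N208.LC

section basic

variable {P N : ℕ} {T ι : Type} [DecidableEq T] [Fintype ι] [DecidableEq ι] {pl : T → Fin P}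

/-! ### Words with two distinguished letters -/

/-- the other letters -/
abbrev Rs (o j : ι) : Type := {x : ι // x ≠ o ∧ x ≠ j}

/-- the word with the letters `x` at `o`, `y` at `j` and `I'` elsewhere -/
def W (o j : ι) (x y : Ix N T) (I' : Rs o j → Ix N T) : ι → Ix N T := fun i =>
  if h : i ≠ o ∧ i ≠ j then I' ⟨i, h⟩ else if i = o then x else y

variable {o j : ι}

theorem W_o (x y : Ix N T) (I' : Rs o j → Ix N T) : W o j x y I' o = x := by
  unfold W
  rw [dif_neg (fun h => h.1 rfl), if_pos rfl]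

theorem W_j (hj : j ≠ o) (x y : Ix N T) (I' : Rs o j → Ix N T) : W o j x y I' j = y := by
  unfold W
  rw [dif_neg (fun h => h.2 rfl), if_neg hj]

theorem W_r (x y : Ix N T) (I' : Rs o j → Ix N T) (r : Rs o j) : W o j x y I' r.1 = I' r := by
  unfold W
  rw [dif_pos r.2]

theorem cases_i (i : ι) : i = o ∨ i = j ∨ ∃ r : Rs o j, r.1 = i := by
  by_cases h1 : i = o
  · exact Or.inl h1
  by_cases h2 : i = j
  · exact Or.inr (Or.inl h2)
  exact Or.inr (Or.inr ⟨⟨i, h1, h2⟩, rfl⟩)

theorem W_ext (hj : j ≠ o) {x y : Ix N T} {I' : Rs o j → Ix N T} {I : ι → Ix N T} (h1 : I o = x)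
    (h2 : I j = y) (h3 : ∀ r : Rs o j, I r.1 = I' r) : I = W o j x y I' := by
  funext i
  rcases cases_i (o := o) (j := j) i with rfl | rfl | ⟨r, rfl⟩
  · rw [W_o, h1]
  · rw [W_j hj, h2]
  · rw [W_r, h3]

theorem W_upd (hj : j ≠ o) (x y z : Ix N T) (I' : Rs o j → Ix N T) (r : Rs o j) :
    Function.update (W o j x y I') r.1 z = W o j x y (Function.update I' r z) := by
  apply W_ext hj
  · rw [Function.update_of_ne (Ne.symm r.2.1), W_o]
  · rw [Function.update_of_ne (Ne.symm r.2.2), W_j hj]
  · intro r'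
    by_cases h : r' = r
    · subst h
      rw [Function.update_self, Function.update_self]
    · rw [Function.update_of_ne (fun h' => h (Subtype.ext h')), Function.update_of_ne h, W_r]

theorem sum_split {M : Type} [AddCommMonoid M] (hj : j ≠ o) (c : ι → M) :
    ∑ i, c i = c o + (c j + ∑ r : Rs o j, c r.1) := by
  rw [← Finset.add_sum_erase univ c (mem_univ o),
    ← Finset.add_sum_erase (univ.erase o) c (mem_erase.mpr ⟨hj, mem_univ j⟩)]
  congr 2
  apply Finset.sum_subtype
  intro x
  rw [mem_erase, mem_erase]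
  constructor
  · rintro ⟨h1, h2, -⟩
    exact ⟨h2, h1⟩
  · rintro ⟨h1, h2⟩
    exact ⟨h2, h1, mem_univ _⟩

/-! ### Weights -/

/-- the weight of a letter -/
def lw (pl : T → Fin P) (x : Ix N T) (b : Fin P) (p : Fin N) : ℤ :=
  (if x.1 = true ∧ x.2.1 = p ∧ pl x.2.2 = b then 1 else 0) -
    (if x.1 = false ∧ x.2.1 = p ∧ pl x.2.2 = b then 1 else 0)

theorem wt_eq (I : ι → Ix N T) (b : Fin P) (p : Fin N) : wt pl I b p = ∑ i, lw pl (I i) b p := by
  unfold wt lw
  rw [Finset.sum_sub_distrib, Finset.card_filter, Finset.card_filter]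
  push_cast
  rfl

theorem wt_W (hj : j ≠ o) (x y : Ix N T) (I' : Rs o j → Ix N T) (b : Fin P) (p : Fin N) :
    wt pl (W o j x y I') b p = lw pl x b p + (lw pl y b p + wt pl I' b p) := by
  rw [wt_eq, sum_split hj, W_o, W_j hj, wt_eq]
  simp only [W_r]

theorem lw_pair {s : Bool} {f : Fin N} {t t' : T} (ht : pl t = pl t') (b : Fin P) (p : Fin N) :
    lw pl (s, f, t) b p + lw pl (!s, f, t') b p = 0 := by
  unfold lw
  simp only [← ht]
  cases s <;> simp

/-- adding a pair does not change the weights -/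
theorem wt_pair (hj : j ≠ o) {s : Bool} {f : Fin N} {t t' : T} (ht : pl t = pl t')
    (I' : Rs o j → Ix N T) (b : Fin P) (p : Fin N) :
    wt pl (W o j (s, f, t) (!s, f, t') I') b p = wt pl I' b p := by
  rw [wt_W hj, ← add_assoc, lw_pair ht, zero_add]

/-- the position `f` is not used at the place `b` -/
def Fr (pl : T → Fin P) (b : Fin P) (I : ι → Ix N T) (f : Fin N) : Prop :=
  ∀ i, pl (I i).2.2 = b → (I i).2.1 ≠ f

theorem used_card (I : ι → Ix N T) (b : Fin P) (hb : ∀ p, wt pl I b p = 0) :
    2 * (univ.filter fun p : Fin N => ∃ i, pl (I i).2.2 = b ∧ (I i).2.1 = p).card ≤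
      Fintype.card ι := by
  have key : ∀ p : Fin N, (∃ i, pl (I i).2.2 = b ∧ (I i).2.1 = p) → ∀ s : Bool,
      ∃ i, (I i).1 = s ∧ (I i).2.1 = p ∧ pl (I i).2.2 = b := by
    rintro p ⟨i, hi1, hi2⟩ s
    have h1 := hb p
    unfold wt at h1
    have h2 : (univ.filter fun k => (I k).1 = true ∧ (I k).2.1 = p ∧ pl (I k).2.2 = b).card =
      (univ.filter fun k => (I k).1 = false ∧ (I k).2.1 = p ∧ pl (I k).2.2 = b).card := by
      omega
    have h3 : 0 < (univ.filter fun k => (I k).1 = s ∧ (I k).2.1 = p ∧ pl (I k).2.2 = b).card := by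
      by_cases hs : (I i).1 = s
      · exact Finset.card_pos.mpr ⟨i, mem_filter.mpr ⟨mem_univ _, hs, hi2, hi1⟩⟩
      · have h4 : 0 < (univ.filter fun k => (I k).1 = (!s) ∧ (I k).2.1 = p ∧
            pl (I k).2.2 = b).card := by
          refine Finset.card_pos.mpr ⟨i, mem_filter.mpr ⟨mem_univ _, ?_, hi2, hi1⟩⟩
          revert hs
          cases (I i).1 <;> cases s <;> simp
        cases s
        · rw [Bool.not_false, h2] at h4
          exact h4
        · rw [Bool.not_true, ← h2] at h4
          exact h4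
    obtain ⟨i', hi'⟩ := Finset.card_pos.mp h3
    exact ⟨i', (mem_filter.mp hi').2⟩
  have h1 : ((univ.filter fun p : Fin N => ∃ i, pl (I i).2.2 = b ∧ (I i).2.1 = p) ×ˢ
      (univ : Finset Bool)).card ≤ (univ : Finset ι).card := by
    refine Finset.card_le_card_of_surjOn (fun i => ((I i).2.1, (I i).1)) ?_
    rintro ⟨p, s⟩ hz
    rw [mem_coe, mem_product, mem_filter] at hz
    obtain ⟨i, hi1, hi2, hi3⟩ := key p hz.1.2 s
    refine ⟨i, mem_coe.mpr (mem_univ _), ?_⟩
    simp only [hi1, hi2]
  rw [card_product, card_univ, card_univ, Fintype.card_bool] at h1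
  omega

theorem exists_fresh (I : ι → Ix N T) (b : Fin P) (hb : ∀ p, wt pl I b p = 0)
    (S : Finset (Fin N)) (hc : Fintype.card ι + 2 * S.card < 2 * N) :
    ∃ f, Fr pl b I f ∧ f ∉ S := by
  by_contra hcon
  push Not at hcon
  have h1 := used_card I b hb
  have h2 : (univ : Finset (Fin N)) ⊆
      (univ.filter fun p : Fin N => ∃ i, pl (I i).2.2 = b ∧ (I i).2.1 = p) ∪ S := by
    intro f _
    rw [mem_union, mem_filter]
    by_cases hf : Fr pl b I f
    · exact Or.inr (hcon f hf)
    · left
      unfold Fr at hf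
      push Not at hf
      exact ⟨mem_univ _, hf⟩
  have h3 := Finset.card_le_card h2
  have h4 := h3.trans (Finset.card_union_le _ _)
  rw [card_univ, Fintype.card_fin] at h4
  omega

end basic

/-! ### Moving a letter -/

section move

variable {P N : ℕ} {T ι : Type} [DecidableEq T] [Fintype ι] [DecidableEq ι] {pl : T → Fin P}
  {F : (ι → Ix N T) → ℂ}

/-- moving one letter to a free position -/
theorem step (hF : Inv pl F) {o : ι} {I : ι → Ix N T} {s : Bool} {a f : Fin N} {t : T}
    (ho : I o = (s, a, t)) (hfa : f ≠ a)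
    (hfr : ∀ i, i ≠ o → (I i).1 = s → pl (I i).2.2 = pl t → (I i).2.1 ≠ f) :
    F I = ∑ k ∈ univ.filter (fun k => (I k).1 = (!s) ∧ (I k).2.1 = a ∧ pl (I k).2.2 = pl t),
      F (Function.update (Function.update I o (s, f, t)) k (!s, f, (I k).2.2)) := by
  obtain ⟨I₁, hI₁⟩ : ∃ I₁, I₁ = Function.update I o (s, f, t) := ⟨_, rfl⟩
  have h1o : I₁ o = (s, f, t) := by rw [hI₁, Function.update_self]
  have h1 : ∀ i, i ≠ o → I₁ i = I i := fun i hi => by rw [hI₁, Function.update_of_ne hi]
  have hback : Function.update I₁ o (s, a, (I₁ o).2.2) = I := by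
    rw [h1o, hI₁, Function.update_idem]
    exact Function.update_eq_self_iff.mpr ho.symm
  have hset1 : (univ.filter fun k => (I₁ k).1 = s ∧ (I₁ k).2.1 = f ∧ pl (I₁ k).2.2 = pl t) =
      {o} := by
    ext k
    rw [mem_filter, mem_singleton]
    constructor
    · rintro ⟨-, h2, h3, h4⟩
      by_contra hk
      rw [h1 k hk] at h2 h3 h4
      exact hfr k hk h2 h4 h3
    · rintro rfl
      rw [h1o]
      exact ⟨mem_univ _, rfl, rfl, rfl⟩
  have hset2 : (univ.filter fun k => (I₁ k).1 = (!s) ∧ (I₁ k).2.1 = a ∧ pl (I₁ k).2.2 = pl t) =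
      (univ.filter fun k => (I k).1 = (!s) ∧ (I k).2.1 = a ∧ pl (I k).2.2 = pl t) := by
    ext k
    rw [mem_filter, mem_filter]
    by_cases hk : k = o
    · subst hk
      rw [h1o, ho]
      simp
    · rw [h1 k hk]
  have hval : ∀ k ∈ (univ.filter fun k => (I k).1 = (!s) ∧ (I k).2.1 = a ∧
      pl (I k).2.2 = pl t), (I₁ k).2.2 = (I k).2.2 := by
    intro k hk
    rw [mem_filter] at hk
    have hko : k ≠ o := by
      rintro rfl
      have h2 := hk.2.1
      rw [ho] at h2
      simp at h2
    rw [h1 k hko]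
  rw [← hI₁]
  cases s with
  | true =>
    have h2 := hF.mov (pl t) f a hfa I₁
    rw [hset1, Finset.sum_singleton, hback] at h2
    rw [h2]
    refine Finset.sum_congr hset2 fun k hk => ?_
    rw [hval k hk]
    rfl
  | false =>
    have h2 := hF.mov (pl t) a f hfa.symm I₁
    rw [hset1, Finset.sum_singleton, hback] at h2
    rw [← h2]
    refine Finset.sum_congr hset2 fun k hk => ?_
    rw [hval k hk]
    rfl

/-- the value does not depend on the position of a pair -/
theorem ind (hF : Inv pl F) {o j : ι} (hj : j ≠ o) {s : Bool} {t t' : T}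
    (ht : pl t = pl t') (I' : Rs o j → Ix N T) {f f' : Fin N} (h : Fr pl (pl t) I' f)
    (h' : Fr pl (pl t) I' f') :
    F (W o j (s, f, t) (!s, f, t') I') = F (W o j (s, f', t) (!s, f', t') I') := by
  by_cases hff : f' = f
  · rw [hff]
  have h1 := step hF (o := o) (I := W o j (s, f, t) (!s, f, t') I') (s := s) (a := f) (f := f')
    (t := t) (W_o _ _ _) hff (by
      intro i hio h2 h3
      rcases cases_i (o := o) (j := j) i with rfl | rfl | ⟨r, rfl⟩
      · exact absurd rfl hio
      · rw [W_j hj] at h2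
        simp at h2
      · rw [W_r] at h3 ⊢
        exact h' r h3)
  rw [h1]
  have hset : (univ.filter fun k => (W o j (s, f, t) (!s, f, t') I' k).1 = (!s) ∧
      (W o j (s, f, t) (!s, f, t') I' k).2.1 = f ∧
      pl (W o j (s, f, t) (!s, f, t') I' k).2.2 = pl t) = {j} := by
    ext k
    rw [mem_filter, mem_singleton]
    constructor
    · rintro ⟨-, h2, h3, h4⟩
      rcases cases_i (o := o) (j := j) k with rfl | rfl | ⟨r, rfl⟩
      · rw [W_o] at h2
        simp at h2
      · rfl
      · rw [W_r] at h3 h4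
        exact absurd h3 (h r h4)
    · rintro rfl
      rw [W_j hj]
      exact ⟨mem_univ _, rfl, rfl, ht.symm⟩
  rw [hset, Finset.sum_singleton, W_j hj]
  congr 1
  apply W_ext hj
  · rw [Function.update_of_ne (Ne.symm hj), Function.update_self]
  · rw [Function.update_self]
  · intro r
    rw [Function.update_of_ne r.2.2, Function.update_of_ne r.2.1, W_r]

open Classical in
/-- the function of the other letters -/
def GG (pl : T → Fin P) (F : (ι → Ix N T) → ℂ) (o j : ι) (s : Bool) (t t' : T) :
    (Rs o j → Ix N T) → ℂ := fun I' =>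
  if h : ∃ f, Fr pl (pl t) I' f then F (W o j (s, h.choose, t) (!s, h.choose, t') I') else 0

theorem GG_eq (hF : Inv pl F) {o j : ι} (hj : j ≠ o) {s : Bool} {t t' : T} (ht : pl t = pl t')
    (I' : Rs o j → Ix N T) {f : Fin N} (h : Fr pl (pl t) I' f) :
    GG pl F o j s t t' I' = F (W o j (s, f, t) (!s, f, t') I') := by
  unfold GG
  have hex : ∃ f, Fr pl (pl t) I' f := ⟨f, h⟩
  rw [dif_pos hex]
  exact ind hF hj ht I' hex.choose_spec h

theorem GG_bal (hF : Inv pl F) {o j : ι} (hj : j ≠ o) {s : Bool} {t t' : T} (ht : pl t = pl t')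
    (I' : Rs o j → Ix N T) (h : GG pl F o j s t t' I' ≠ 0) (b : Fin P) (p : Fin N) :
    wt pl I' b p = 0 := by
  unfold GG at h
  split_ifs at h with hex
  · have h1 := hF.bal _ h b p
    rwa [wt_pair hj ht] at h1
  · exact absurd rfl h

/-- if a term is not zero there is a good position -/
theorem good (hF : Inv pl F) {o j : ι} (hj : j ≠ o) (hc : Fintype.card (Rs o j) + 2 < 2 * N)
    {s : Bool} {t t' : T} (ht : pl t = pl t') (I' : Rs o j → Ix N T) {σ : Bool} {b : Fin P}
    {p q : Fin N} (r : Rs o j) (h2 : (I' r).2.1 = p) (h3 : pl (I' r).2.2 = b)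
    (h : GG pl F o j s t t' (Function.update I' r (σ, q, (I' r).2.2)) ≠ 0) :
    ∃ f, Fr pl (pl t) I' f ∧ (b = pl t → f ≠ p ∧ f ≠ q) := by
  by_cases hb : b = pl t
  · obtain ⟨f, hf1, hf2⟩ := exists_fresh (Function.update I' r (σ, q, (I' r).2.2)) (pl t)
      (fun p' => GG_bal hF hj ht _ h (pl t) p') {p} (by rw [card_singleton]; omega)
    rw [mem_singleton] at hf2
    refine ⟨f, ?_, fun _ => ⟨hf2, ?_⟩⟩
    · intro i hi
      by_cases hir : i = r
      · rw [hir, h2]
        exact Ne.symm hf2
      · have h4 := hf1 i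
        rw [Function.update_of_ne hir] at h4
        exact h4 hi
    · have h4 := hf1 r
      rw [Function.update_self] at h4
      exact Ne.symm (h4 (h3.trans hb))
  · unfold GG at h
    split_ifs at h with hex
    · obtain ⟨f, hf⟩ := hex
      refine ⟨f, ?_, fun h' => absurd h' hb⟩
      intro i hi
      by_cases hir : i = r
      · rw [hir, h3] at hi
        exact absurd hi hb
      · have h4 := hf i
        rw [Function.update_of_ne hir] at h4
        exact h4 hi
    · exact absurd rfl h

/-- a sum over the letters of a word with a pair at the position `f` -/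
theorem sum_W {o j : ι} (hj : j ≠ o) {s : Bool} {t t' : T} (ht : pl t = pl t')
    (I' : Rs o j → Ix N T) {f : Fin N} (σ : Bool) {b : Fin P} {p q : Fin N}
    (h : b = pl t → f ≠ p) (F : (ι → Ix N T) → ℂ) :
    ∑ k ∈ univ.filter (fun k => (W o j (s, f, t) (!s, f, t') I' k).1 = σ ∧
        (W o j (s, f, t) (!s, f, t') I' k).2.1 = p ∧
        pl (W o j (s, f, t) (!s, f, t') I' k).2.2 = b),
      F (Function.update (W o j (s, f, t) (!s, f, t') I') k
        (σ, q, (W o j (s, f, t) (!s, f, t') I' k).2.2)) =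
    ∑ r ∈ univ.filter (fun r => (I' r).1 = σ ∧ (I' r).2.1 = p ∧ pl (I' r).2.2 = b),
      F (W o j (s, f, t) (!s, f, t') (Function.update I' r (σ, q, (I' r).2.2))) := by
  rw [Finset.sum_filter, sum_split hj, Finset.sum_filter]
  rw [if_neg, if_neg, zero_add, zero_add]
  · refine Finset.sum_congr rfl fun r _ => ?_
    rw [W_r, W_upd hj]
  · rw [W_j hj]
    rintro ⟨-, h1, h2⟩
    exact h (h2.symm.trans ht.symm) h1
  · rw [W_o]
    rintro ⟨-, h1, h2⟩
    exact h h2.symm h1

theorem GG_inv (hF : Inv pl F) {o j : ι} (hj : j ≠ o) (hc : Fintype.card (Rs o j) + 2 < 2 * N)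
    (s : Bool) {t t' : T} (ht : pl t = pl t') : Inv pl (GG pl F o j s t t') where
  bal := fun I' h b p => GG_bal hF hj ht I' h b p
  mov := by
    intro b p q hpq I'
    by_cases hg : ∃ f, Fr pl (pl t) I' f ∧ (b = pl t → f ≠ p ∧ f ≠ q)
    · obtain ⟨f, hf1, hf2⟩ := hg
      have hterm : ∀ (σ : Bool) (q' : Fin N) (r : Rs o j), (b = pl t → f ≠ q') →
          pl (I' r).2.2 = b →
          GG pl F o j s t t' (Function.update I' r (σ, q', (I' r).2.2)) =
            F (W o j (s, f, t) (!s, f, t') (Function.update I' r (σ, q', (I' r).2.2))) := by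
        intro σ q' r hq hr
        apply GG_eq hF hj ht
        intro i hi
        by_cases hir : i = r
        · subst hir
          rw [Function.update_self] at hi ⊢
          exact Ne.symm (hq (hr.symm.trans hi))
        · rw [Function.update_of_ne hir] at hi ⊢
          exact hf1 i hi
      have h1 := hF.mov b p q hpq (W o j (s, f, t) (!s, f, t') I')
      rw [sum_W hj ht I' true (fun hb => (hf2 hb).1) F,
        sum_W hj ht I' false (fun hb => (hf2 hb).2) F] at h1
      refine Eq.trans (Finset.sum_congr rfl fun r hr => ?_) (h1.trans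
        (Finset.sum_congr rfl fun r hr => ?_))
      · exact hterm true q r (fun hb => (hf2 hb).2) (mem_filter.mp hr).2.2.2
      · exact (hterm false p r (fun hb => (hf2 hb).1) (mem_filter.mp hr).2.2.2).symm
    · rw [Finset.sum_eq_zero, Finset.sum_eq_zero]
      · intro r hr
        by_contra h
        obtain ⟨-, -, h2, h3⟩ := mem_filter.mp hr
        obtain ⟨f, hf1, hf2⟩ := good hF hj hc ht I' r h2 h3 h
        exact hg ⟨f, hf1, fun hb => ⟨(hf2 hb).2, (hf2 hb).1⟩⟩
      · intro r hr
        by_contra h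
        obtain ⟨-, -, h2, h3⟩ := mem_filter.mp hr
        exact hg (good hF hj hc ht I' r h2 h3 h)

/-! ### The expansion -/

/-- the contractions -/
def dl (z : Bool × T × T) (x y : Ix N T) : ℂ :=
  if x.1 = z.1 ∧ y.1 = (!z.1) ∧ x.2.2 = z.2.1 ∧ y.2.2 = z.2.2 ∧ x.2.1 = y.2.1 then 1 else 0

theorem sum_dl [Fintype T] (x y : Ix N T) (g : Bool × T × T → ℂ) :
    ∑ z ∈ (univ : Finset (Bool × T × T)).filter (fun z => pl z.2.1 = pl z.2.2), dl z x y * g z =
      if y.1 = (!x.1) ∧ y.2.1 = x.2.1 ∧ pl y.2.2 = pl x.2.2 then g (x.1, x.2.2, y.2.2) else 0 := by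
  by_cases h : y.1 = (!x.1) ∧ y.2.1 = x.2.1 ∧ pl y.2.2 = pl x.2.2
  · rw [if_pos h, Finset.sum_eq_single (x.1, x.2.2, y.2.2)]
    · unfold dl
      rw [if_pos ⟨rfl, h.1, rfl, rfl, h.2.1.symm⟩, one_mul]
    · intro z _ hz
      unfold dl
      rw [if_neg, zero_mul]
      rintro ⟨h1, -, h2, h3, -⟩
      apply hz
      rw [h1, h2, h3]
    · intro h'
      refine absurd ?_ h'
      rw [mem_filter]
      exact ⟨mem_univ _, h.2.2.symm⟩
  · rw [if_neg h]
    apply Finset.sum_eq_zero
    intro z hz
    unfold dl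
    rw [if_neg, zero_mul]
    rintro ⟨h1, h2, h3, h4, h5⟩
    apply h
    refine ⟨by rw [h1, h2], h5.symm, ?_⟩
    rw [h3, h4]
    exact (mem_filter.mp hz).2.symm

theorem expand [Fintype T] (hF : Inv pl F) (o : ι) (hc : Fintype.card ι < 2 * N)
    (I : ι → Ix N T) : F I = ∑ j ∈ univ.erase o,
      ∑ z ∈ (univ : Finset (Bool × T × T)).filter (fun z => pl z.2.1 = pl z.2.2),
        dl z (I o) (I j) * GG pl F o j z.1 z.2.1 z.2.2 (fun r => I r.1) := by
  simp only [sum_dl (pl := pl)]
  obtain ⟨⟨s, a, t⟩, hIo⟩ : ∃ x, x = I o := ⟨_, rfl⟩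
  rw [← hIo]
  simp only
  by_cases hbal : ∀ b p, wt pl I b p = 0
  · obtain ⟨f, hf, -⟩ := exists_fresh I (pl t) (hbal (pl t)) ∅ (by rw [card_empty]; omega)
    have hfa : f ≠ a := by
      have h1 := hf o
      rw [← hIo] at h1
      exact Ne.symm (h1 rfl)
    rw [step hF hIo.symm hfa fun i _ _ h3 => hf i h3, ← Finset.sum_filter]
    have hset : (univ.erase o).filter (fun j => (I j).1 = (!s) ∧ (I j).2.1 = a ∧
        pl (I j).2.2 = pl t) =
        univ.filter (fun j => (I j).1 = (!s) ∧ (I j).2.1 = a ∧ pl (I j).2.2 = pl t) := by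
      ext j
      rw [mem_filter, mem_filter, mem_erase]
      constructor
      · rintro ⟨-, h⟩
        exact ⟨mem_univ _, h⟩
      · rintro ⟨-, h⟩
        refine ⟨⟨?_, mem_univ _⟩, h⟩
        rintro rfl
        have h1 := h.1
        rw [← hIo] at h1
        simp at h1
    rw [hset]
    refine Finset.sum_congr rfl fun j hj => ?_
    obtain ⟨-, h1, h2, h3⟩ := mem_filter.mp hj
    have hjo : j ≠ o := by
      rintro rfl
      rw [← hIo] at h1
      simp at h1
    rw [GG_eq hF hjo h3.symm (fun r => I r.1) (f := f) (fun r hr => hf r.1 hr)]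
    congr 1
    apply W_ext hjo
    · rw [Function.update_of_ne (Ne.symm hjo), Function.update_self]
    · rw [Function.update_self]
    · intro r
      rw [Function.update_of_ne r.2.2, Function.update_of_ne r.2.1]
  · have h0 : F I = 0 := by
      by_contra h
      exact hbal fun b p => hF.bal I h b p
    rw [h0]
    symm
    apply Finset.sum_eq_zero
    intro j hj
    have hjo : j ≠ o := (mem_erase.mp hj).1
    split_ifs with h
    · by_contra hne
      apply hbal
      intro b p
      have h1 := GG_bal hF hjo h.2.2.symm _ hne b p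
      have h2 : I = W o j (s, a, t) (!s, a, (I j).2.2) (fun r => I r.1) := by
        apply W_ext hjo hIo.symm
        · rw [← h.1, ← h.2.1]
        · intro r
          rfl
      rw [h2, wt_pair hjo h.2.2.symm]
      exact h1
    · rfl

end move

/-! ### Products of contractions -/

section span

variable {P N : ℕ} {T ι : Type} [DecidableEq T] [Fintype ι] [DecidableEq ι] {pl : T → Fin P}

/-- the enumeration of the letters -/
def ef {o j : ι} {k : ℕ} (e : Fin k × Fin 2 ≃ Rs o j) : Fin (k + 1) × Fin 2 → ι := fun x =>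
  Fin.cases (if x.2 = 0 then o else j) (fun i => (e (i, x.2)).1) x.1

theorem ef_bij {o j : ι} {k : ℕ} (hcard : Fintype.card ι = 2 * (k + 1))
    (e : Fin k × Fin 2 ≃ Rs o j) : Function.Bijective (ef e) := by
  rw [Fintype.bijective_iff_surjective_and_card]
  constructor
  · intro i
    rcases cases_i (o := o) (j := j) i with rfl | rfl | ⟨r, rfl⟩
    · exact ⟨(0, 0), rfl⟩
    · exact ⟨(0, 1), rfl⟩
    · refine ⟨((e.symm r).1.succ, (e.symm r).2), ?_⟩
      change (e ((e.symm r).1, (e.symm r).2)).1 = r.1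
      rw [Prod.mk.eta, Equiv.apply_symm_apply]
  · rw [Fintype.card_prod, Fintype.card_fin, Fintype.card_fin, hcard, mul_comm]

theorem lift_span {k : ℕ} (hcard : Fintype.card ι = 2 * (k + 1)) {o j : ι}
    {δ : Ix N T → Ix N T → ℂ} (hδ : IsDel pl δ) {G : (Rs o j → Ix N T) → ℂ}
    (hG : G ∈ Submodule.span ℂ (Prs (ι := Rs o j) (N := N) pl k)) :
    (fun I : ι → Ix N T => δ (I o) (I j) * G (fun r => I r.1)) ∈
      Submodule.span ℂ (Prs (ι := ι) (N := N) pl (k + 1)) := by
  let Θ : ((Rs o j → Ix N T) → ℂ) →ₗ[ℂ] ((ι → Ix N T) → ℂ) :=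
    { toFun := fun G I => δ (I o) (I j) * G (fun r => I r.1)
      map_add' := fun G G' => by
        funext I
        rw [Pi.add_apply, Pi.add_apply, mul_add]
      map_smul' := fun c G => by
        funext I
        rw [Pi.smul_apply, Pi.smul_apply, RingHom.id_apply, smul_eq_mul, smul_eq_mul]
        ring }
  have hle : Submodule.span ℂ (Prs (ι := Rs o j) (N := N) pl k) ≤
      (Submodule.span ℂ (Prs (ι := ι) (N := N) pl (k + 1))).comap Θ := by
    rw [Submodule.span_le]
    rintro G ⟨e, d, hd, hG⟩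
    apply Submodule.subset_span
    refine ⟨Equiv.ofBijective _ (ef_bij hcard e), Fin.cons δ d, ?_, ?_⟩
    · intro i
      refine Fin.cases ?_ (fun i => ?_) i
      · exact hδ
      · exact hd i
    · intro I
      rw [Fin.prod_univ_succ]
      change δ (I o) (I j) * G (fun r => I r.1) = _
      rw [hG]
      rfl
  exact hle hG

theorem card_Rs {o j : ι} (hj : j ≠ o) : Fintype.card ι = Fintype.card (Rs o j) + 2 := by
  have h := sum_split hj (fun _ => (1 : ℕ))
  rw [Finset.sum_const, Finset.sum_const, card_univ, card_univ, smul_eq_mul, smul_eq_mul,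
    mul_one, mul_one] at h
  omega

end span

/-- LC/CORE -/
theorem main : S_CORE := by
  intro P N k
  induction k with
  | zero =>
    intro T ι _ _ _ _ pl hcard _ F _
    have hem : IsEmpty ι := Fintype.card_eq_zero_iff.mp (by rw [hcard])
    have h1 : F = (F fun i => hem.elim i) • (fun _ => (1 : ℂ)) := by
      funext I
      rw [Pi.smul_apply, smul_eq_mul, mul_one]
      congr 1
      funext i
      exact hem.elim i
    rw [h1]
    apply Submodule.smul_mem
    apply Submodule.subset_span
    refine ⟨Equiv.equivOfIsEmpty _ _, fun i => i.elim0, fun i => i.elim0, fun I => ?_⟩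
    rw [Finset.univ_eq_empty, Finset.prod_empty]
  | succ k ih =>
    intro T ι _ _ _ _ pl hcard hk F hF
    have hne : 0 < Fintype.card ι := by omega
    obtain ⟨o⟩ := Fintype.card_pos_iff.mp hne
    have h1 : F = ∑ j ∈ univ.erase o,
        ∑ z ∈ (univ : Finset (Bool × T × T)).filter (fun z => pl z.2.1 = pl z.2.2),
          (fun I : ι → Ix N T => dl z (I o) (I j) *
            GG pl F o j z.1 z.2.1 z.2.2 (fun r => I r.1)) := by
      funext I
      rw [expand hF o (by omega) I, Finset.sum_apply]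
      refine Finset.sum_congr rfl fun j _ => ?_
      rw [Finset.sum_apply]
    rw [h1]
    refine Submodule.sum_mem _ fun j hj => Submodule.sum_mem _ fun z hz => ?_
    have hjo : j ≠ o := (mem_erase.mp hj).1
    have hz2 : pl z.2.1 = pl z.2.2 := (mem_filter.mp hz).2
    have hcR := card_Rs hjo
    apply lift_span hcard
    · exact ⟨z.1, z.2.1, z.2.2, hz2, fun x y => rfl⟩
    · exact ih T (Rs o j) pl (by omega) (by omega) _ (GG_inv hF hjo (by omega) z.1 hz2)

end Pool.Agent.N530.LC
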