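import Pool.Agent.N988.EP.Stm
import Pool.Agent.N988.EC.BO

/-!
# Project EP (helper988), part LAW: the law of the first-passage time between the ends
-/

set_option autoImplicit false

open MeasureTheory Set
open scoped ENNReal
open Pool.Agent.N988.EA Pool.Agent.N988.EC Pool.Agent.N988.EP

namespace Pool.Agent.N530.EP

noncomputable section

/-- currying of finite products -/
lemma mp_curry {α β X : Type} [Fintype α] [Fintype β] [I : Fintype (α × β)] [MeasurableSpace X]
    (μ : Measure X) [IsProbabilityMeasure μ] :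
    MeasurePreserving (fun (J : α × β → X) (a : α) (c : β) => J (a, c))
      (Measure.pi fun _ : α × β => μ) (Measure.pi fun _ : α => Measure.pi fun _ : β => μ) := by
  refine ⟨measurable_pi_lambda _ fun a => measurable_pi_lambda _ fun c => measurable_pi_apply _, ?_⟩
  have h1 := Measure.infinitePi_map_curry (ι := α) (κ := β) (fun _ _ => μ)
  have h2 : (Measure.infinitePi fun _ : α × β => μ) = Measure.pi fun _ : α × β => μ :=
    Measure.infinitePi_eq_pi _
  have h3 : (Measure.infinitePi fun _ : β => μ) = Measure.pi fun _ : β => μ :=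
    Measure.infinitePi_eq_pi _
  have h4 : (Measure.infinitePi fun _ : α => Measure.pi fun _ : β => μ) =
      Measure.pi fun _ : α => Measure.pi fun _ : β => μ := Measure.infinitePi_eq_pi _
  rw [h2] at h1
  simp only [h3] at h1
  rw [h4] at h1
  exact h1

/-- functions on two points -/
lemma mp_bool {X : Type} [MeasurableSpace X] (ν : Measure X) [IsProbabilityMeasure ν] :
    MeasurePreserving (fun g : Bool → X => (g false, g true)) (Measure.pi fun _ : Bool => ν)
      (ν.prod ν) := by
  refine ⟨(measurable_pi_apply _).prodMk (measurable_pi_apply _), ?_⟩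
  symm
  refine Measure.prod_eq fun s t hs ht => ?_
  rw [Measure.map_apply ((measurable_pi_apply _).prodMk (measurable_pi_apply _)) (hs.prod ht)]
  have h1 : (fun g : Bool → X => (g false, g true)) ⁻¹' (s ×ˢ t) =
      Set.pi univ fun h : Bool => if h then t else s := by
    ext g
    simp
  rw [h1, Measure.pi_pi, Fintype.prod_bool]
  simp [mul_comm]

section

variable {α : Type} [MeasurableSpace α] (ν : Measure α) [IsProbabilityMeasure ν]

instance instIid (b n : ℕ) : IsProbabilityMeasure (iid ν b n) := by
  unfold iid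
  infer_instance

/-- the halves of the branches -/
theorem mp_halves (hC : S_CUR) (b n : ℕ) :
    MeasurePreserving (fun (w : Edge b (n + 1) → α) (i : Fin b) =>
      ((fun e => w (i, false, e) : Edge b n → α), (fun e => w (i, true, e) : Edge b n → α)))
      (iid ν b (n + 1)) (Measure.pi fun _ : Fin b => (iid ν b n).prod (iid ν b n)) := by
  have h1 : MeasurePreserving (fun (w : Edge b (n + 1) → α) (c : Fin b × Bool) (e : Edge b n) =>
      w (c.1, c.2, e)) (iid ν b (n + 1)) (Measure.pi fun _ : Fin b × Bool => iid ν b n) := by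
    refine ⟨?_, hC b n α ν⟩
    exact measurable_pi_lambda _ fun c => measurable_pi_lambda _ fun e => measurable_pi_apply _
  have h2 := mp_curry (α := Fin b) (β := Bool) (iid ν b n)
  have h3 := measurePreserving_pi (fun _ : Fin b => Measure.pi fun _ : Bool => iid ν b n)
    (fun _ : Fin b => (iid ν b n).prod (iid ν b n)) (fun _ => mp_bool (iid ν b n))
  exact (h3.comp h2).comp h1

end

theorem meas_set {b n : ℕ} (s : Set (Edge b n → Bool)) : MeasurableSet s :=
  (Set.toFinite s).measurableSet

theorem meas_set2 {b n : ℕ} (s : Set ((Edge b n → Bool) × (Edge b n → Bool))) :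
    MeasurableSet s :=
  (Set.toFinite s).measurableSet

theorem lt_Y {b : ℕ} (hb : 1 ≤ b) (n k : ℕ) (w : Edge b (n + 1) → Bool) :
    k < Y (n + 1) w ↔ ∀ i : Fin b, k < Y n (sub w i false) + Y n (sub w i true) := by
  have hne : Nonempty (Fin b) := ⟨⟨0, hb⟩⟩
  have h1 : Y (n + 1) w = ⨅ i : Fin b, (Y n (sub w i false) + Y n (sub w i true)) := rfl
  rw [h1]
  constructor
  · intro h i
    exact lt_of_lt_of_le h (ciInf_le' _ i)
  · intro h
    obtain ⟨i, hi⟩ := exists_eq_ciInf_of_finite
      (f := fun i : Fin b => Y n (sub w i false) + Y n (sub w i true))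
    rw [← hi]
    exact h i

variable (ν : Measure Bool) [IsProbabilityMeasure ν]

theorem prob_lt (hC : S_CUR) {b : ℕ} (hb : 1 ≤ b) (n k : ℕ) :
    (iid ν b (n + 1)).real {w | k < Y (n + 1) w} =
      (((iid ν b n).prod (iid ν b n)).real
        {q : (Edge b n → Bool) × (Edge b n → Bool) | k < Y n q.1 + Y n q.2}) ^ b := by
  have h1 : {w : Edge b (n + 1) → Bool | k < Y (n + 1) w} =
      (fun (w : Edge b (n + 1) → Bool) (i : Fin b) =>
        ((fun e => w (i, false, e) : Edge b n → Bool), (fun e => w (i, true, e) : Edge b n → Bool))) ⁻¹'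
        (Set.pi univ fun _ : Fin b =>
          {q : (Edge b n → Bool) × (Edge b n → Bool) | k < Y n q.1 + Y n q.2}) := by
    ext w
    rw [mem_preimage, mem_univ_pi]
    exact lt_Y hb n k w
  rw [h1, measureReal_def, (mp_halves ν hC b n).measure_preimage
    (MeasurableSet.univ_pi fun _ => meas_set2 _).nullMeasurableSet, Measure.pi_pi,
    Finset.prod_const, Finset.card_univ, Fintype.card_fin, ENNReal.toReal_pow, measureReal_def]

theorem prod_compl {b n : ℕ} (s : Set ((Edge b n → Bool) × (Edge b n → Bool))) :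
    ((iid ν b n).prod (iid ν b n)).real sᶜ = 1 - ((iid ν b n).prod (iid ν b n)).real s :=
  probReal_compl_eq_one_sub (meas_set2 s)

omit [IsProbabilityMeasure ν] in
theorem prod_prod {b n : ℕ} (s t : Set (Edge b n → Bool)) :
    ((iid ν b n).prod (iid ν b n)).real (s ×ˢ t) = (iid ν b n).real s * (iid ν b n).real t :=
  measureReal_prod_prod s t

/-- P6: the law of `Y`. -/
theorem t_LAW (h1 : S_CUR) : S_LAW := by
  intro b hb p hp0 hp1
  have : IsProbabilityMeasure (coin (1 - p)) := coin_prob (by linarith) (by linarith)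
  refine ⟨?_, fun n => ⟨?_, ?_, fun j => ?_⟩⟩
  · have h2 : MeasurePreserving (fun w : Edge b 0 → Bool => w ()) (iid (coin (1 - p)) b 0)
        (coin (1 - p)) := measurePreserving_eval (fun _ : Edge b 0 => coin (1 - p)) ()
    have h3 : {w : Edge b 0 → Bool | Y 0 w = 0} =
        (fun w : Edge b 0 → Bool => w ()) ⁻¹' ({false} : Set Bool) := by
      ext w
      have h4 : Y 0 w = if w () then 1 else 0 := rfl
      rw [mem_ofPred_eq, h4, mem_preimage, mem_singleton_iff]
      cases w () <;> simp
    rw [h3, measureReal_def,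
      h2.measure_preimage (measurableSet_singleton false).nullMeasurableSet]
    unfold coin
    simp [hp0]
  · have h2 : {w : Edge b (n + 1) → Bool | Y (n + 1) w = 0} = {w | 0 < Y (n + 1) w}ᶜ := by
      ext w
      rw [mem_compl_iff, mem_ofPred_eq, mem_ofPred_eq]
      omega
    rw [h2, probReal_compl_eq_one_sub (meas_set _), prob_lt _ h1 hb]
    congr 2
    have h3 : {q : (Edge b n → Bool) × (Edge b n → Bool) | 0 < Y n q.1 + Y n q.2} =
        ({w | Y n w = 0} ×ˢ {w | Y n w = 0})ᶜ := by
      ext q
      rw [mem_compl_iff, mem_prod, mem_ofPred_eq, mem_ofPred_eq, mem_ofPred_eq]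
      omega
    rw [h3, prod_compl, prod_prod, sq]
  · have h2 : {w : Edge b (n + 1) → Bool | Y (n + 1) w ≤ 1} = {w | 1 < Y (n + 1) w}ᶜ := by
      ext w
      rw [mem_compl_iff, mem_ofPred_eq, mem_ofPred_eq]
      omega
    rw [h2, probReal_compl_eq_one_sub (meas_set _), prob_lt _ h1 hb]
    congr 2
    have h3 : {q : (Edge b n → Bool) × (Edge b n → Bool) | 1 < Y n q.1 + Y n q.2} =
        (({w | Y n w = 0} ×ˢ {w | Y n w = 0}) ∪ (({w | Y n w = 0} ×ˢ {w | Y n w = 1}) ∪
          ({w | Y n w = 1} ×ˢ {w | Y n w = 0})))ᶜ := by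
      ext q
      simp only [mem_compl_iff, mem_union, mem_prod, mem_ofPred_eq]
      omega
    rw [h3, prod_compl, measureReal_union _ (meas_set2 _), measureReal_union _ (meas_set2 _),
      prod_prod, prod_prod, prod_prod]
    · ring
    · rw [Set.disjoint_left]
      rintro q ⟨a1, a2⟩ ⟨a3, a4⟩
      simp only [mem_ofPred_eq] at a1 a2 a3 a4
      omega
    · rw [Set.disjoint_left]
      rintro q ⟨a1, a2⟩ a5
      simp only [mem_union, mem_prod, mem_ofPred_eq] at a1 a2 a5
      omega
  · rw [prob_lt _ h1 hb]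
    refine pow_le_pow_left₀ measureReal_nonneg ?_ b
    have h2 : {q : (Edge b n → Bool) × (Edge b n → Bool) | 2 * j < Y n q.1 + Y n q.2} ⊆
        ({w | j < Y n w}ᶜ ×ˢ {w | j < Y n w}ᶜ)ᶜ := by
      intro q hq
      simp only [mem_compl_iff, mem_prod, mem_ofPred_eq] at hq ⊢
      omega
    refine (measureReal_mono h2).trans (le_of_eq ?_)
    rw [prod_compl, prod_prod, probReal_compl_eq_one_sub (meas_set _), sq]

end

end Pool.Agent.N530.EP
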