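import Mathlib
import Pool.Agent.N604.MW.Stm

/-!
# Project MW (helper604): `k` terms do not suffice (helper530)
-/

set_option autoImplicit false

namespace Pool.Agent.N530.MWSharp

open Finset Pool.Agent.N604.MW

/-- lower bound of the values -/
lemma lower (d : ℕ) (c b : ℝ) (θ : Fin d → ℝ) (hc : 1 ≤ c) : ∃ K : ℝ, 0 ≤ K ∧ ∀ x : ℕ,
    5 / 6 * (x : ℝ) ^ (d + 1) - K ≤ (⌊PP d c b θ (x : ℝ)⌋ : ℝ) := by
  obtain ⟨A, hA⟩ : ∃ A : ℝ, A = ∑ j, |θ j| + |b| := ⟨_, rfl⟩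
  have hA0 : 0 ≤ A := by rw [hA]; positivity
  refine ⟨A + A * (6 * A) ^ d + 1, by positivity, fun x => ?_⟩
  have hx0 : (0 : ℝ) ≤ x := Nat.cast_nonneg x
  have h1 : ∑ j : Fin d, θ j * (x : ℝ) ^ ((j : ℕ) + 1) + b ≥ -(A * (1 + (x : ℝ) ^ d)) := by
    have h2 : ∀ j : Fin d, -(|θ j| * (1 + (x : ℝ) ^ d)) ≤ θ j * (x : ℝ) ^ ((j : ℕ) + 1) := by
      intro j
      have h3 : (x : ℝ) ^ ((j : ℕ) + 1) ≤ 1 + (x : ℝ) ^ d := by
        rcases Nat.eq_zero_or_pos x with h | h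
        · subst h
          have : (0 : ℝ) ≤ ((0 : ℕ) : ℝ) ^ d := by positivity
          rw [Nat.cast_zero] at this ⊢
          rw [zero_pow (Nat.succ_ne_zero _)]
          linarith
        · have h4 : (1 : ℝ) ≤ x := by exact_mod_cast h
          have h5 : (x : ℝ) ^ ((j : ℕ) + 1) ≤ (x : ℝ) ^ d := pow_le_pow_right₀ h4 j.2
          linarith
      have h4 : (0 : ℝ) ≤ (x : ℝ) ^ ((j : ℕ) + 1) := by positivity
      have h5 := neg_abs_le (θ j)
      have h6 := abs_nonneg (θ j)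
      nlinarith
    have h3 : ∑ j : Fin d, -(|θ j| * (1 + (x : ℝ) ^ d)) ≤
        ∑ j : Fin d, θ j * (x : ℝ) ^ ((j : ℕ) + 1) := Finset.sum_le_sum fun j _ => h2 j
    rw [Finset.sum_neg_distrib, ← Finset.sum_mul] at h3
    have h4 : -(|b| * (1 + (x : ℝ) ^ d)) ≤ b := by
      have h5 := neg_abs_le b
      have h6 : (0 : ℝ) ≤ (x : ℝ) ^ d := by positivity
      have h7 := abs_nonneg b
      nlinarith
    rw [hA]
    linarith
  have h2 : -(A * (6 * A) ^ d) ≤ 1 / 6 * (x : ℝ) ^ (d + 1) - A * (x : ℝ) ^ d := by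
    have e1 : 1 / 6 * (x : ℝ) ^ (d + 1) - A * (x : ℝ) ^ d = (x : ℝ) ^ d * (x / 6 - A) := by
      rw [pow_succ]
      ring
    have h3 : (0 : ℝ) ≤ (x : ℝ) ^ d := by positivity
    rw [e1]
    by_cases h : 6 * A ≤ x
    · have h4 : 0 ≤ (x : ℝ) ^ d * (x / 6 - A) := mul_nonneg h3 (by linarith)
      have h5 : 0 ≤ A * (6 * A) ^ d := by positivity
      linarith
    · have h4 : (x : ℝ) ^ d ≤ (6 * A) ^ d := pow_le_pow_left₀ hx0 (by linarith) d
      have h5 : (x : ℝ) ^ d * A ≤ (6 * A) ^ d * A := mul_le_mul_of_nonneg_right h4 hA0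
      have h6 : 0 ≤ (x : ℝ) ^ d * (x / 6) := by positivity
      nlinarith
  have h3 : (x : ℝ) ^ (d + 1) ≤ c * (x : ℝ) ^ (d + 1) :=
    le_mul_of_one_le_left (by positivity) hc
  have h4 : PP d c b θ (x : ℝ) - 1 ≤ (⌊PP d c b θ (x : ℝ)⌋ : ℝ) := (Int.sub_one_lt_floor _).le
  have h5 : PP d c b θ (x : ℝ) = c * (x : ℝ) ^ (d + 1) +
      ∑ j : Fin d, θ j * (x : ℝ) ^ ((j : ℕ) + 1) + b := rfl
  linarith

/-- the largest base -/
lemma root (k : ℕ) (hk : 1 ≤ k) (R : ℝ) (hR : 0 ≤ R) :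
    ∃ M : ℕ, (M : ℝ) ^ k ≤ R ∧ ∀ x : ℕ, (x : ℝ) ^ k ≤ R → x ≤ M := by
  have h1 : ({x : ℕ | (x : ℝ) ^ k ≤ R}).Nonempty := by
    refine ⟨0, ?_⟩
    show ((0 : ℕ) : ℝ) ^ k ≤ R
    rw [Nat.cast_zero, zero_pow (by omega)]
    exact hR
  have h2 : BddAbove {x : ℕ | (x : ℝ) ^ k ≤ R} := by
    refine ⟨⌈R⌉₊, fun x hx => ?_⟩
    have h3 : (x : ℝ) ^ k ≤ R := hx
    have h4 : (x : ℝ) ≤ (x : ℝ) ^ k := by
      have h5 : x ≤ x ^ k := Nat.le_self_pow (by omega) x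
      exact_mod_cast h5
    exact_mod_cast (h4.trans h3).trans (Nat.le_ceil R)
  exact ⟨sSup {x : ℕ | (x : ℝ) ^ k ≤ R}, Nat.sSup_mem h1 h2, fun x hx => le_csSup h2 hx⟩

lemma ratio (k : ℕ) : ∃ M1 : ℕ, ∀ M : ℕ, M1 ≤ M → ((M : ℝ) + k) ^ k ≤ 6 / 5 * (M : ℝ) ^ k := by
  have h1 : Filter.Tendsto (fun M : ℕ => (1 + (k : ℝ) / M) ^ k) Filter.atTop (nhds ((1 + 0) ^ k)) :=
    ((tendsto_const_div_atTop_nhds_zero_nat (k : ℝ)).const_add 1).pow k
  rw [add_zero, one_pow] at h1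
  have h2 := h1.eventually (gt_mem_nhds (show (1 : ℝ) < 6 / 5 by norm_num))
  rw [Filter.eventually_atTop] at h2
  obtain ⟨M1, hM1⟩ := h2
  refine ⟨max M1 1, fun M hM => ?_⟩
  have h3 := hM1 M (le_trans (le_max_left _ _) hM)
  have h4 : (1 : ℝ) ≤ M := by exact_mod_cast le_trans (le_max_right _ _) hM
  have h5 : (M : ℝ) ≠ 0 := by positivity
  have h6 : (M : ℝ) + k = (1 + (k : ℝ) / M) * M := by
    field_simp
  rw [h6, mul_pow]
  exact mul_le_mul_of_nonneg_right h3.le (by positivity)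

/-- counting multisets -/
lemma count (k M : ℕ) (f : ℕ → ℤ) (S : Finset ℕ)
    (hS : ∀ m ∈ S, ∃ n : Fin k → ℕ, (∀ i, n i ≤ M) ∧ ∑ i, f (n i) = (m : ℤ)) :
    (S.card : ℝ) ≤ ((M : ℝ) + k) ^ k / (k.factorial : ℝ) := by
  classical
  have h1 : (S.image (fun m : ℕ => (m : ℤ))) ⊆
      (Finset.univ : Finset (Sym (Fin (M + 1)) k)).image
        (fun s : Sym (Fin (M + 1)) k => (Multiset.map (fun x : Fin (M + 1) => f x.val)
          (s : Multiset (Fin (M + 1)))).sum) := by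
    intro z hz
    rw [Finset.mem_image] at hz
    obtain ⟨m, hm, rfl⟩ := hz
    obtain ⟨n, hn, hsum⟩ := hS m hm
    rw [Finset.mem_image]
    refine ⟨⟨(Finset.univ : Finset (Fin k)).val.map fun i =>
      (⟨n i, Nat.lt_succ_of_le (hn i)⟩ : Fin (M + 1)), by simp⟩, Finset.mem_univ _, ?_⟩
    rw [← hsum]
    simp only [Sym.coe_mk, Multiset.map_map]
    rfl
  have h2 := Finset.card_le_card h1
  rw [Finset.card_image_of_injective _ Nat.cast_injective] at h2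
  have h3 := h2.trans Finset.card_image_le
  rw [Finset.card_univ, Sym.card_sym_eq_multichoose, Fintype.card_fin, Nat.multichoose_eq] at h3
  have h4 : M + 1 + k - 1 = M + k := by omega
  rw [h4] at h3
  have h5 : ((M + k).choose k : ℝ) ≤ ((M + k : ℕ) : ℝ) ^ k / (k.factorial : ℝ) :=
    Nat.choose_le_pow_div k (M + k)
  have h6 : (S.card : ℝ) ≤ ((M + k).choose k : ℝ) := by exact_mod_cast h3
  push_cast at h5
  exact h6.trans h5

theorem sharp : S_SHARP := by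
  intro d c b θ hd hc
  obtain ⟨K, hK, hlow⟩ := lower d c b θ hc
  obtain ⟨M1, hM1⟩ := ratio (d + 1)
  refine ⟨max ⌈24 * ((d : ℝ) + 1) * K⌉₊ ((M1 + (d + 1)) ^ (d + 1)), fun N hN S hS => ?_⟩
  have hN1 : 24 * ((d : ℝ) + 1) * K ≤ N :=
    (Nat.le_ceil _).trans (by exact_mod_cast (le_max_left _ _).trans hN)
  have hN2 : ((M1 : ℝ) + (d + 1 : ℕ)) ^ (d + 1) ≤ N := by
    exact_mod_cast (le_max_right _ _).trans hN
  obtain ⟨M, hM, hMx⟩ := root (d + 1) (by omega) (6 / 5 * (N + ((d : ℝ) + 1) * K)) (by positivity)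
  have hcount := count (d + 1) M (fun x => ⌊PP d c b θ (x : ℝ)⌋) S (by
    intro m hm
    obtain ⟨hmN, n, hn⟩ := hS m hm
    refine ⟨n, fun i => hMx _ ?_, hn⟩
    have h1 : ∑ i, (5 / 6 * (n i : ℝ) ^ (d + 1) - K) ≤ N := by
      calc ∑ i, (5 / 6 * (n i : ℝ) ^ (d + 1) - K) ≤ ∑ i, (⌊PP d c b θ (n i : ℝ)⌋ : ℝ) :=
            Finset.sum_le_sum fun i _ => hlow (n i)
        _ = (m : ℝ) := by exact_mod_cast congrArg (fun z : ℤ => (z : ℝ)) hn
        _ ≤ N := by exact_mod_cast hmN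
    rw [Finset.sum_sub_distrib, Finset.sum_const, Finset.card_univ, Fintype.card_fin,
      nsmul_eq_mul] at h1
    have h2 : 5 / 6 * (n i : ℝ) ^ (d + 1) ≤ ∑ i, 5 / 6 * (n i : ℝ) ^ (d + 1) :=
      Finset.single_le_sum (f := fun i => 5 / 6 * (n i : ℝ) ^ (d + 1))
        (fun i _ => by positivity) (Finset.mem_univ i)
    push_cast at h1
    linarith)
  have hfac : (2 : ℝ) ≤ ((d + 1).factorial : ℝ) := by
    have : (2 : ℕ).factorial ≤ (d + 1).factorial := Nat.factorial_le (by omega)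
    exact_mod_cast this
  have hbound : ((M : ℝ) + (d + 1 : ℕ)) ^ (d + 1) ≤ 3 / 2 * N := by
    rcases le_total M1 M with h | h
    · have h1 := hM1 M h
      have h2 : 6 / 5 * (M : ℝ) ^ (d + 1) ≤ 6 / 5 * (6 / 5 * (N + ((d : ℝ) + 1) * K)) :=
        mul_le_mul_of_nonneg_left hM (by norm_num)
      linarith
    · have h1 : ((M : ℝ) + (d + 1 : ℕ)) ^ (d + 1) ≤ ((M1 : ℝ) + (d + 1 : ℕ)) ^ (d + 1) := by
        refine pow_le_pow_left₀ (by positivity) ?_ _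
        have : (M : ℝ) ≤ M1 := by exact_mod_cast h
        linarith
      have h2 : (0 : ℝ) ≤ N := Nat.cast_nonneg N
      linarith
  have h1 : (S.card : ℝ) ≤ 3 / 2 * N / 2 := by
    refine hcount.trans ?_
    exact div_le_div₀ (by positivity) hbound (by norm_num) hfac
  have h2 : (4 : ℝ) * S.card ≤ 3 * N := by linarith
  exact_mod_cast h2

end Pool.Agent.N530.MWSharp
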