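import Mathlib
import Pool.Agent.N604.MW.Stm

/-!
# Project MW (helper604): power sums control separated variables (helper530)
-/

set_option autoImplicit false

namespace Pool.Agent.N530.MWSign

open Finset Pool.Agent.N604.MW

/-- a polynomial with prescribed signs on the intervals -/
lemma signPoly (a : ℕ) : ∀ r : ℕ, ∃ C1 : ℝ, 1 ≤ C1 ∧ ∀ (X : ℝ) (s : ℕ → ℝ), 1 ≤ X →
    (∀ i, s i = 1 ∨ s i = -1) →
    ∃ (t : ℕ) (R : Polynomial ℝ), t ≤ r ∧ R.natDegree ≤ t ∧ (∀ n, |R.coeff n| ≤ C1 * X ^ t) ∧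
    (∀ i ≤ r, ∀ y, 2 * ((i : ℝ) + a + 1) * X ≤ y → y ≤ (2 * ((i : ℝ) + a + 1) + 1) * X →
      (X / 2) ^ t ≤ s i * R.eval y) ∧
    ∀ y, 2 * ((r : ℝ) + a + 1) * X ≤ y → (X / 2) ^ t ≤ s r * R.eval y := by
  intro r
  induction r with
  | zero =>
    refine ⟨1, le_rfl, fun X s hX hs => ⟨0, Polynomial.C (s 0), le_rfl, ?_, ?_, ?_, ?_⟩⟩
    · simp
    · intro n
      rw [Polynomial.coeff_C]
      split_ifs
      · rcases hs 0 with h | h <;> rw [h] <;> simp
      · simp
    · intro i hi y _ _
      have hi0 : i = 0 := by omega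
      subst hi0
      rw [Polynomial.eval_C]
      rcases hs 0 with h | h <;> rw [h] <;> simp
    · intro y _
      rw [Polynomial.eval_C]
      rcases hs 0 with h | h <;> rw [h] <;> simp
  | succ r ih =>
    obtain ⟨C1, hC1, ih⟩ := ih
    have hra : (0 : ℝ) ≤ (r : ℝ) + a + 1 := by positivity
    refine ⟨(2 * ((r : ℝ) + a + 1) + 5 / 2) * C1, by nlinarith, fun X s hX hs => ?_⟩
    obtain ⟨t, R, ht, hd, hc, hi, hy⟩ := ih X s hX hs
    have hX0 : (0 : ℝ) < X := by linarith
    have hXt : (0 : ℝ) < X ^ t := by positivity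
    have hle : C1 * X ^ t ≤ (2 * ((r : ℝ) + a + 1) + 5 / 2) * C1 * X ^ t := by
      have : C1 ≤ (2 * ((r : ℝ) + a + 1) + 5 / 2) * C1 := by nlinarith
      exact mul_le_mul_of_nonneg_right this hXt.le
    by_cases h : s (r + 1) = s r
    · refine ⟨t, R, by omega, hd, fun n => (hc n).trans hle, ?_, ?_⟩
      · intro i hir y h1 h2
        rcases Nat.lt_or_ge r i with h3 | h3
        · have h4 : i = r + 1 := by omega
          subst h4
          rw [h]
          refine hy y (le_trans ?_ h1)
          push_cast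
          nlinarith
        · exact hi i h3 y h1 h2
      · intro y h1
        rw [h]
        refine hy y (le_trans ?_ h1)
        push_cast
        nlinarith
    · have h' : s (r + 1) = - s r := by
        rcases hs (r + 1) with h1 | h1 <;> rcases hs r with h2 | h2
        · exact absurd (h1.trans h2.symm) h
        · rw [h1, h2, neg_neg]
        · rw [h1, h2]
        · exact absurd (h1.trans h2.symm) h
      obtain ⟨g, hg⟩ : ∃ g : ℝ, g = (2 * ((r : ℝ) + a + 1) + 3 / 2) * X := ⟨_, rfl⟩
      have hev : ∀ y, ((Polynomial.C g - Polynomial.X) * R).eval y = (g - y) * R.eval y := by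
        intro y
        simp
      -- the tail
      have htail : ∀ y, 2 * (((r + 1 : ℕ) : ℝ) + a + 1) * X ≤ y →
          (X / 2) ^ (t + 1) ≤ s (r + 1) * ((Polynomial.C g - Polynomial.X) * R).eval y := by
        intro y h1
        push_cast at h1
        have h2 : X / 2 ≤ y - g := by rw [hg]; nlinarith
        have h3 := hy y (by nlinarith)
        rw [hev, h', pow_succ]
        have h4 : (X / 2) ^ t * (X / 2) ≤ (s r * R.eval y) * (y - g) :=
          mul_le_mul h3 h2 (by positivity) (le_trans (by positivity) h3)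
        calc (X / 2) ^ t * (X / 2) ≤ (s r * R.eval y) * (y - g) := h4
          _ = -s r * ((g - y) * R.eval y) := by ring
      refine ⟨t + 1, (Polynomial.C g - Polynomial.X) * R, by omega, ?_, ?_, ?_, htail⟩
      · refine Polynomial.natDegree_mul_le.trans ?_
        have h1 : (Polynomial.C g - Polynomial.X : Polynomial ℝ).natDegree ≤ 1 := by
          refine (Polynomial.natDegree_sub_le _ _).trans ?_
          simp
        omega
      · intro n
        have h1 : ((Polynomial.C g - Polynomial.X) * R).coeff n =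
            g * R.coeff n - (if n = 0 then 0 else R.coeff (n - 1)) := by
          rw [sub_mul, Polynomial.coeff_sub, Polynomial.coeff_C_mul]
          congr 1
          cases n with
          | zero => simp
          | succ n => simp [Polynomial.coeff_X_mul]
        rw [h1]
        have h2 : |g * R.coeff n| ≤ g * (C1 * X ^ t) := by
          rw [abs_mul, abs_of_nonneg (by rw [hg]; positivity)]
          exact mul_le_mul_of_nonneg_left (hc n) (by rw [hg]; positivity)
        have h3 : |(if n = 0 then 0 else R.coeff (n - 1) : ℝ)| ≤ C1 * X ^ t := by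
          split_ifs
          · rw [abs_zero]; positivity
          · exact hc _
        have h4 := abs_sub (g * R.coeff n) (if n = 0 then 0 else R.coeff (n - 1))
        have h5 : C1 * X ^ t ≤ C1 * X ^ t * X := le_mul_of_one_le_right (by positivity) hX
        calc |g * R.coeff n - (if n = 0 then 0 else R.coeff (n - 1))|
            ≤ g * (C1 * X ^ t) + C1 * X ^ t * X := by linarith
          _ = (2 * ((r : ℝ) + a + 1) + 5 / 2) * C1 * X ^ (t + 1) := by
            rw [hg, pow_succ]
            ring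
      · intro i hir y h1 h2
        rcases Nat.lt_or_ge r i with h3 | h3
        · have h4 : i = r + 1 := by omega
          subst h4
          exact htail y h1
        · have h5 : (i : ℝ) ≤ r := by exact_mod_cast h3
          have h6 : X / 2 ≤ g - y := by rw [hg]; nlinarith
          have h7 := hi i h3 y h1 h2
          rw [hev, pow_succ]
          have h8 : (X / 2) ^ t * (X / 2) ≤ (s i * R.eval y) * (g - y) :=
            mul_le_mul h7 h6 (by positivity) (le_trans (by positivity) h7)
          calc (X / 2) ^ t * (X / 2) ≤ (s i * R.eval y) * (g - y) := h8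
            _ = s i * ((g - y) * R.eval y) := by ring

/-- the mean value theorem -/
lemma mvt (l r : ℕ) (R : Polynomial ℝ) (hR : R.natDegree < r) (X c s p q u v : ℝ) (hX : 0 ≤ X)
    (hc : 0 ≤ c) (hXp : X ≤ p) (hs : s = 1 ∨ s = -1) (hu : p ≤ u ∧ u ≤ q) (hv : p ≤ v ∧ v ≤ q)
    (hsu : s * (u - v) = |u - v|) (h : ∀ y, p ≤ y → y ≤ q → c ≤ s * R.eval y) :
    X ^ l * c * |u - v| ≤
      ∑ n ∈ range r, R.coeff n / ((l : ℝ) + n + 1) * (u ^ (l + n + 1) - v ^ (l + n + 1)) := by
  obtain ⟨Q, hQ⟩ : ∃ Q : ℝ → ℝ, Q = fun y =>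
    ∑ n ∈ range r, R.coeff n / ((l : ℝ) + n + 1) * y ^ (l + n + 1) := ⟨_, rfl⟩
  have hQd : ∀ y, HasDerivAt Q (y ^ l * R.eval y) y := by
    intro y
    have h1 : HasDerivAt Q (∑ n ∈ range r, R.coeff n / ((l : ℝ) + n + 1) *
        (((l + n + 1 : ℕ) : ℝ) * y ^ (l + n + 1 - 1))) y := by
      rw [hQ]
      exact HasDerivAt.fun_sum fun n _ => (hasDerivAt_pow _ y).const_mul _
    have h2 : ∑ n ∈ range r, R.coeff n / ((l : ℝ) + n + 1) *
        (((l + n + 1 : ℕ) : ℝ) * y ^ (l + n + 1 - 1)) = y ^ l * R.eval y := by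
      rw [Polynomial.eval_eq_sum_range' hR, Finset.mul_sum]
      refine Finset.sum_congr rfl fun n _ => ?_
      have h3 : (l : ℝ) + n + 1 ≠ 0 := by positivity
      rw [Nat.add_sub_cancel, pow_add]
      push_cast
      field_simp
    rw [← h2]
    exact h1
  have hsum : ∑ n ∈ range r, R.coeff n / ((l : ℝ) + n + 1) *
      (u ^ (l + n + 1) - v ^ (l + n + 1)) = Q u - Q v := by
    rw [hQ]
    simp only
    rw [← Finset.sum_sub_distrib]
    exact Finset.sum_congr rfl fun n _ => by ring
  rw [hsum]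
  have hsd : ∀ y, HasDerivAt (fun y => s * Q y) (s * (y ^ l * R.eval y)) y := fun y =>
    (hQd y).const_mul s
  have hge : ∀ y ∈ interior (Set.Icc p q), X ^ l * c ≤ deriv (fun y => s * Q y) y := by
    intro y hy
    rw [interior_Icc] at hy
    rw [(hsd y).deriv]
    have h1 := h y hy.1.le hy.2.le
    have h2 : X ^ l ≤ y ^ l := pow_le_pow_left₀ hX (hXp.trans hy.1.le) l
    have h3 : X ^ l * c ≤ y ^ l * (s * R.eval y) :=
      mul_le_mul h2 h1 hc (pow_nonneg (hX.trans (hXp.trans hy.1.le)) l)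
    linarith
  have key := Convex.mul_sub_le_image_sub_of_le_deriv (convex_Icc p q)
    (f := fun y => s * Q y) (fun y _ => (hsd y).continuousAt.continuousWithinAt)
    (fun y _ => (hsd y).differentiableAt.differentiableWithinAt) hge
  rcases hs with hs | hs
  · rw [hs, one_mul] at hsu
    have h1 : v ≤ u := by
      have := abs_nonneg (u - v)
      linarith
    have h2 := key v ⟨hv.1, hv.2⟩ u ⟨hu.1, hu.2⟩ h1
    simp only [hs, one_mul] at h2
    rw [← hsu]
    exact h2
  · have h1 : u ≤ v := by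
      have := abs_nonneg (u - v)
      rw [hs] at hsu
      linarith
    have h2 := key u ⟨hu.1, hu.2⟩ v ⟨hv.1, hv.2⟩ h1
    simp only [hs] at h2
    rw [hs] at hsu
    have h3 : |u - v| = v - u := by linarith
    rw [h3]
    linarith

theorem sign : S_SIGN := by
  intro r l a
  rcases Nat.eq_zero_or_pos r with hr | hr
  · subst hr
    refine ⟨1, one_pos, fun X H u v hX hH _ _ _ => ?_⟩
    rw [Fin.sum_univ_zero]
    positivity
  obtain ⟨r', rfl⟩ : ∃ r', r = r' + 1 := ⟨r - 1, by omega⟩
  obtain ⟨C1, hC1, hpoly⟩ := signPoly a r'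
  refine ⟨((r' : ℝ) + 1) * C1 * 2 ^ r', by positivity, fun X H u v hX hH hu hv hsum => ?_⟩
  have hX0 : (0 : ℝ) < X := by linarith
  obtain ⟨s, hs⟩ : ∃ s : ℕ → ℝ, s = fun i =>
    if h : i < r' + 1 then (if v ⟨i, h⟩ ≤ u ⟨i, h⟩ then 1 else -1) else 1 := ⟨_, rfl⟩
  have hs1 : ∀ i, s i = 1 ∨ s i = -1 := by
    intro i
    rw [hs]
    simp only
    split_ifs
    · exact Or.inl rfl
    · exact Or.inr rfl
    · exact Or.inl rfl
  have hsi : ∀ i : Fin (r' + 1), s i * (u i - v i) = |u i - v i| := by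
    intro i
    rw [hs]
    simp only [i.2, dif_pos, Fin.eta]
    split_ifs with h
    · rw [one_mul, abs_of_nonneg (by linarith)]
    · rw [abs_of_neg (by linarith)]
      ring
  obtain ⟨t, R, ht, hd, hc, hi, -⟩ := hpoly X s hX hs1
  have hXt : (0 : ℝ) < X ^ t := by positivity
  have h1 : ∀ i : Fin (r' + 1), X ^ l * (X / 2) ^ t * |u i - v i| ≤
      ∑ n ∈ range (r' + 1), R.coeff n / ((l : ℝ) + n + 1) *
        (u i ^ (l + n + 1) - v i ^ (l + n + 1)) := by
    intro i
    have hir : (i : ℕ) ≤ r' := by omega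
    refine mvt l (r' + 1) R (by omega) X ((X / 2) ^ t) (s i) (2 * ((i : ℝ) + a + 1) * X)
      ((2 * ((i : ℝ) + a + 1) + 1) * X) (u i) (v i) hX0.le (by positivity) ?_ (hs1 i) (hu i)
      (hv i) (hsi i) (hi i hir)
    have h2 : (0 : ℝ) ≤ (i : ℝ) + a := by positivity
    nlinarith
  have h2 : X ^ l * (X / 2) ^ t * ∑ i, |u i - v i| ≤ (((r' + 1 : ℕ) : ℝ)) * (C1 * X ^ t * H) := by
    rw [Finset.mul_sum]
    refine (Finset.sum_le_sum fun i _ => h1 i).trans ?_
    rw [Finset.sum_comm]
    calc ∑ n ∈ range (r' + 1), ∑ i : Fin (r' + 1), R.coeff n / ((l : ℝ) + n + 1) *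
        (u i ^ (l + n + 1) - v i ^ (l + n + 1)) ≤ ∑ n ∈ range (r' + 1), C1 * X ^ t * H := by
          refine Finset.sum_le_sum fun n hn => ?_
          rw [← Finset.mul_sum]
          have h3 := hsum (l + n + 1) (by
            rw [Finset.mem_Icc]
            rw [Finset.mem_range] at hn
            omega)
          have h4 : |R.coeff n / ((l : ℝ) + n + 1)| ≤ C1 * X ^ t := by
            rw [abs_div, abs_of_pos (by positivity : (0 : ℝ) < (l : ℝ) + n + 1)]
            refine (div_le_self (abs_nonneg _) ?_).trans (hc n)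
            have : (0 : ℝ) ≤ (l : ℝ) + n := by positivity
            linarith
          calc R.coeff n / ((l : ℝ) + n + 1) * ∑ i, (u i ^ (l + n + 1) - v i ^ (l + n + 1))
              ≤ |R.coeff n / ((l : ℝ) + n + 1) *
                ∑ i, (u i ^ (l + n + 1) - v i ^ (l + n + 1))| := le_abs_self _
            _ ≤ C1 * X ^ t * H := by
              rw [abs_mul]
              exact mul_le_mul h4 h3 (abs_nonneg _) (by positivity)
      _ = (((r' + 1 : ℕ) : ℝ)) * (C1 * X ^ t * H) := by
          rw [Finset.sum_const, Finset.card_range, nsmul_eq_mul]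
  have h3 : (X / 2) ^ t = X ^ t / 2 ^ t := div_pow X 2 t
  rw [h3] at h2
  have hXl : (0 : ℝ) < X ^ l := by positivity
  have h4 : ∑ i, |u i - v i| ≤ (((r' + 1 : ℕ) : ℝ)) * C1 * 2 ^ t * H / X ^ l := by
    rw [le_div_iff₀ hXl]
    have h5 : X ^ t * ((∑ i, |u i - v i|) * X ^ l) ≤
        X ^ t * ((((r' + 1 : ℕ) : ℝ)) * C1 * 2 ^ t * H) := by
      have h6 : X ^ l * (X ^ t / 2 ^ t) * (∑ i, |u i - v i|) * 2 ^ t ≤
          (((r' + 1 : ℕ) : ℝ)) * (C1 * X ^ t * H) * 2 ^ t :=
        mul_le_mul_of_nonneg_right h2 (by positivity)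
      have h7 : X ^ l * (X ^ t / 2 ^ t) * (∑ i, |u i - v i|) * 2 ^ t =
          X ^ t * ((∑ i, |u i - v i|) * X ^ l) := by
        field_simp
      rw [h7] at h6
      linarith
    exact le_of_mul_le_mul_left h5 hXt
  refine h4.trans ?_
  have h5 : (2 : ℝ) ^ t ≤ 2 ^ r' := pow_le_pow_right₀ one_le_two ht
  have h6 : (((r' + 1 : ℕ) : ℝ)) * C1 * 2 ^ t * H ≤ ((r' : ℝ) + 1) * C1 * 2 ^ r' * H := by
    push_cast
    exact mul_le_mul_of_nonneg_right (mul_le_mul_of_nonneg_left h5 (by positivity)) hH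
  exact div_le_div_of_nonneg_right h6 hXl.le

end Pool.Agent.N530.MWSign
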