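import Mathlib
import Pool.Agent.N604.MW.Stm

/-!
# Project MW (helper604): the volume of a slab in a cube (helper530)
-/

set_option autoImplicit false

namespace Pool.Agent.N530.MWSlab

open MeasureTheory Pool.Agent.N604.MW

theorem slab : S_SLAB := by
  intro d B hB
  rcases d with _ | n
  · refine ⟨1, one_pos, ?_⟩
    rintro a t K H _ _ ⟨j, _⟩
    exact j.elim0
  refine ⟨2 * (2 * B) ^ n, by positivity, ?_⟩
  rintro a t K H hK hH ⟨j, hj⟩
  have haj : 0 < |a j| := hH.trans_le hj
  have haj0 : a j ≠ 0 := abs_pos.1 haj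
  obtain ⟨T, hT⟩ : ∃ T : Set (ℝ × (Fin n → ℝ)), T =
      {p | p.2 ∈ Set.Icc (fun _ => -B) (fun _ => B) ∧
        |p.1 * a j + ∑ i, p.2 i * a (j.succAbove i) + t| ≤ K} := ⟨_, rfl⟩
  have hTm : MeasurableSet T := by
    rw [hT]
    have h1 : IsClosed {p : ℝ × (Fin n → ℝ) |
        |p.1 * a j + ∑ i, p.2 i * a (j.succAbove i) + t| ≤ K} :=
      isClosed_le (by fun_prop) continuous_const
    have h2 : IsClosed {p : ℝ × (Fin n → ℝ) | p.2 ∈ Set.Icc (fun _ => -B) (fun _ => B)} :=
      isClosed_Icc.preimage continuous_snd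
    exact (h2.inter h1).measurableSet
  have hmp := MeasureTheory.volume_preserving_piFinSuccAbove (fun _ : Fin (n + 1) => ℝ) j
  have hsub : {θ : Fin (n + 1) → ℝ | (∀ j, |θ j| ≤ B) ∧ |∑ j, θ j * a j + t| ≤ K} ⊆
      (MeasurableEquiv.piFinSuccAbove (fun _ : Fin (n + 1) => ℝ) j) ⁻¹' T := by
    rintro θ ⟨h1, h2⟩
    rw [Set.mem_preimage, hT]
    refine ⟨⟨fun i => ?_, fun i => ?_⟩, ?_⟩
    · exact (abs_le.1 (h1 _)).1
    · exact (abs_le.1 (h1 _)).2
    · rw [Fin.sum_univ_succAbove _ j] at h2
      exact h2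
  have hsec : ∀ y : Fin n → ℝ, volume ((fun x : ℝ => (x, y)) ⁻¹' T) ≤
      (Set.Icc (fun _ => -B) (fun _ => B) : Set (Fin n → ℝ)).indicator
        (fun _ => ENNReal.ofReal (2 * K / H)) y := by
    intro y
    by_cases hy : y ∈ (Set.Icc (fun _ => -B) (fun _ => B) : Set (Fin n → ℝ))
    · rw [Set.indicator_of_mem hy]
      obtain ⟨c, hc⟩ : ∃ c, c = ∑ i, y i * a (j.succAbove i) + t := ⟨_, rfl⟩
      have h1 : (fun x : ℝ => (x, y)) ⁻¹' T ⊆
          Set.Icc (-(c / a j) - K / |a j|) (-(c / a j) + K / |a j|) := by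
        intro x hx
        rw [Set.mem_preimage, hT] at hx
        have h2 : |x * a j + ∑ i, y i * a (j.succAbove i) + t| ≤ K := hx.2
        have h3 : |x + c / a j| ≤ K / |a j| := by
          rw [le_div_iff₀ haj, ← abs_mul, hc]
          have h4 : (x + (∑ i, y i * a (j.succAbove i) + t) / a j) * a j =
              x * a j + ∑ i, y i * a (j.succAbove i) + t := by
            field_simp
            ring
          rw [h4]
          exact h2
        rw [abs_le] at h3
        exact ⟨by linarith [h3.1], by linarith [h3.2]⟩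
      refine (measure_mono h1).trans ?_
      rw [Real.volume_Icc]
      apply ENNReal.ofReal_le_ofReal
      have h5 : K / |a j| ≤ K / H := div_le_div_of_nonneg_left hK hH hj
      have h6 : 2 * K / H = 2 * (K / H) := by ring
      rw [h6]
      linarith
    · rw [Set.indicator_of_notMem hy]
      have h1 : (fun x : ℝ => (x, y)) ⁻¹' T = ∅ := by
        rw [Set.eq_empty_iff_forall_notMem]
        intro x hx
        rw [Set.mem_preimage, hT] at hx
        exact hy hx.1
      rw [h1, measure_empty]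
  calc volume {θ : Fin (n + 1) → ℝ | (∀ j, |θ j| ≤ B) ∧ |∑ j, θ j * a j + t| ≤ K}
      ≤ volume ((MeasurableEquiv.piFinSuccAbove (fun _ : Fin (n + 1) => ℝ) j) ⁻¹' T) :=
        measure_mono hsub
    _ = volume T := hmp.measure_preimage hTm.nullMeasurableSet
    _ = ∫⁻ y : Fin n → ℝ, volume ((fun x : ℝ => (x, y)) ⁻¹' T) := by
        rw [Measure.volume_eq_prod]
        exact Measure.prod_apply_symm hTm
    _ ≤ ∫⁻ y : Fin n → ℝ, (Set.Icc (fun _ => -B) (fun _ => B) : Set (Fin n → ℝ)).indicator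
        (fun _ => ENNReal.ofReal (2 * K / H)) y := lintegral_mono hsec
    _ = ENNReal.ofReal (2 * K / H) *
        volume (Set.Icc (fun _ => -B) (fun _ => B) : Set (Fin n → ℝ)) :=
        lintegral_indicator_const measurableSet_Icc _
    _ = ENNReal.ofReal (2 * K / H) * ENNReal.ofReal ((2 * B) ^ n) := by
        rw [Real.volume_Icc_pi]
        congr 1
        rw [Finset.prod_const, Finset.card_univ, Fintype.card_fin,
          ENNReal.ofReal_pow (by positivity)]
        congr 2
        ring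
    _ = ENNReal.ofReal (2 * (2 * B) ^ n * K / H) := by
        rw [← ENNReal.ofReal_mul (by positivity)]
        congr 1
        ring

end Pool.Agent.N530.MWSlab
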