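import Pool.Agent.N576.MX3.D

/-!
# MX3/STEP (helper530): one step of the extrapolation
-/

set_option autoImplicit false

namespace Pool.Agent.N530.MX3

noncomputable section

open Finset Pool.Agent.N576.MX3

theorem step_of (h1 : LIOU) (h2 : CMP) (h3 : DER) (h4 : GROW) (h5 : CHAIN) (h6 : SCHW) : STEP := by
  intro q H L T0 t S S' p P hq hH hL ht hT0 hS hSS' hP hp hLam hA hB h0 m1 m2 s' hm1 hm2 hs'
  have hHr : (3 : ℝ) ≤ H := by exact_mod_cast hH
  have hLr : (1 : ℝ) ≤ L := by exact_mod_cast hL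
  have hS'r : (1 : ℝ) ≤ S' := by exact_mod_cast hS.trans hSS'
  have hlog : 1 ≤ 2 * Real.log H := by
    have e1 : (1 : ℝ) ≤ Real.log H := by
      rw [Real.le_log_iff_exp_le (by linarith)]
      have := Real.exp_one_lt_d9
      linarith
    linarith
  have hLam0 : 0 ≤ |q.Lam| := abs_nonneg _
  have hLS : (1 : ℝ) ≤ L * S' := one_le_mul_of_one_le_of_one_le hLr hS'r
  have hLam1 : |q.Lam| ≤ 1 := by
    calc |q.Lam| = |q.Lam| * 1 := (mul_one _).symm
      _ ≤ |q.Lam| * (L * S') := mul_le_mul_of_nonneg_left hLS hLam0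
      _ ≤ 1 := hLam
  set G : ℝ := (L : ℝ) ^ 3 * P * (2 * H * L) ^ (2 * T0) * (H : ℝ) ^ (3 * L * S') * (2 * (L * S')) *
    |q.Lam| with hG
  have hG0 : 0 ≤ G := by positivity
  -- comparison
  have cmp : ∀ n1 n2 s : ℕ, n1 ≤ T0 → n2 ≤ T0 → s ≤ S' →
      |q.ph L p n1 n2 0 s - q.A L p n1 n2 s| ≤ G := by
    intro n1 n2 s hn1 hn2 hs
    have hsr : (s : ℝ) ≤ S' := by exact_mod_cast hs
    have hs0 : (0 : ℝ) ≤ s := Nat.cast_nonneg s
    have e1 : |q.Lam| * (L * s) ≤ 1 := by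
      refine le_trans ?_ hLam
      gcongr
    have e2 := h2 q H L T0 s p P n1 n2 hq hL hn1 hn2 hp e1
    refine e2.trans ?_
    have e3 : (H : ℝ) ^ (3 * L * s) ≤ (H : ℝ) ^ (3 * L * S') :=
      pow_le_pow_right₀ (by linarith) (Nat.mul_le_mul_left _ hs)
    rw [hG]
    have e4 : (0 : ℝ) ≤ (L : ℝ) ^ 3 * P * (2 * H * L) ^ (2 * T0) := by positivity
    gcongr
  -- the derivatives at the integers below `S`
  have der : ∀ k < t, ∀ s < S, |q.ph L p m1 m2 k (s : ℝ)| ≤ (2 * Real.log H) ^ t * G := by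
    intro k hk s hs
    have e1 := h3 q H L p m1 m2 k s G hq hH (by
      intro i j hij
      have e2 := cmp (m1 + i) (m2 + j) s (by omega) (by omega) (by omega)
      rw [h0 (m1 + i) (m2 + j) s (by omega) (by omega) hs, sub_zero] at e2
      exact e2)
    refine e1.trans ?_
    have e3 : (2 * Real.log H) ^ k ≤ (2 * Real.log H) ^ t := pow_le_pow_right₀ hlog hk.le
    gcongr
  set M : ℝ := (L : ℝ) ^ 3 * P * (2 * H * L) ^ (2 * T0) * (4 * L * Real.log H) ^ (S * t) *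
    Real.exp (4 * L * Real.log H * S') with hM
  have grow : ∀ x : ℝ, 0 ≤ x → x ≤ S' → |q.ph L p m1 m2 (S * t) x| ≤ M := by
    intro x hx hx'
    exact h4 q H L T0 (S * t) p P m1 m2 x S' hq hH hL (by omega) (by omega) hp hLam1
      (by rw [abs_of_nonneg hx]; exact hx')
  set ε : ℝ := (2 * Real.log H) ^ t * G with hε
  have hpow1 : (1 : ℝ) ≤ (2 * Real.log H) ^ t := one_le_pow₀ hlog
  have hε0 : 0 ≤ ε := by positivity
  have schw := h6 (fun k y => q.ph L p m1 m2 k y) S t S' ε M hS ht (by exact_mod_cast hSS') hε0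
    (fun k x => h5 q L p m1 m2 k x) der grow s' (Nat.cast_nonneg _) (by exact_mod_cast hs'.le)
  have hc := cmp m1 m2 s' (by omega) (by omega) hs'.le
  rcases h1 q H L p m1 m2 s' hq with hl | hl
  · exact hl
  · exfalso
    have hs'r : (H : ℝ) ^ (3 * L * s') ≤ (H : ℝ) ^ (3 * L * S') :=
      pow_le_pow_right₀ (by linarith) (Nat.mul_le_mul_left _ hs'.le)
    set W : ℝ := (H : ℝ) ^ (3 * L * S') with hW
    have hW0 : 0 ≤ W := by positivity
    have e1 : 1 ≤ |q.A L p m1 m2 s'| * W :=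
      hl.trans (mul_le_mul_of_nonneg_left hs'r (abs_nonneg _))
    have e2 : |q.A L p m1 m2 s'| ≤ |q.ph L p m1 m2 0 s'| + G := by
      have := abs_sub_abs_le_abs_sub (q.A L p m1 m2 s') (q.ph L p m1 m2 0 s')
      rw [abs_sub_comm] at this
      linarith
    have e3 : |q.A L p m1 m2 s'| ≤ M * (S' : ℝ) ^ (S * t) / (S * t).factorial +
        ε * (((S * t : ℕ) : ℝ) + 1) * (((t : ℝ) + 2) * (S' + 1)) ^ (S * t) + G := by
      have : |q.ph L p m1 m2 0 s'| ≤ M * (S' : ℝ) ^ (S * t) / (S * t).factorial +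
        ε * (((S * t : ℕ) : ℝ) + 1) * (((t : ℝ) + 2) * (S' + 1)) ^ (S * t) := schw
      linarith
    have e4 : G ≤ ε * (((S * t : ℕ) : ℝ) + 1) * (((t : ℝ) + 2) * (S' + 1)) ^ (S * t) := by
      have f1 : G ≤ ε := by
        rw [hε]
        exact le_mul_of_one_le_left hG0 hpow1
      have f2 : (1 : ℝ) ≤ ((S * t : ℕ) : ℝ) + 1 := by
        have : (0 : ℝ) ≤ ((S * t : ℕ) : ℝ) := Nat.cast_nonneg _
        linarith
      have f3 : (1 : ℝ) ≤ (((t : ℝ) + 2) * (S' + 1)) ^ (S * t) := by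
        apply one_le_pow₀
        have : (0 : ℝ) ≤ t := Nat.cast_nonneg _
        nlinarith
      calc G ≤ ε := f1
        _ ≤ ε * (((S * t : ℕ) : ℝ) + 1) := le_mul_of_one_le_right hε0 f2
        _ ≤ _ := le_mul_of_one_le_right (by positivity) f3
    have e5 : (M * (S' : ℝ) ^ (S * t) / (S * t).factorial) * W ≤ 1 / 4 := hA
    have e6 : (ε * (((S * t : ℕ) : ℝ) + 1) * (((t : ℝ) + 2) * (S' + 1)) ^ (S * t)) * W ≤ 1 / 4 := hB
    have e7 : G * W ≤ 1 / 4 := (mul_le_mul_of_nonneg_right e4 hW0).trans e6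
    have e8 := mul_le_mul_of_nonneg_right e3 hW0
    rw [add_mul, add_mul] at e8
    linarith

end

end Pool.Agent.N530.MX3
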