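import Pool.Agent.N979.P1.Stm
import Pool.Agent.N979.CP.Fin

/-!
# PROJECT P1, part VALP: the boundary value
-/

set_option autoImplicit false

open MeasureTheory Metric Set Filter Topology

namespace Pool.Agent.N530.P1

open Pool.Agent.H241R3.FV Pool.Agent.N526.CP Pool.Agent.N979.P1

/-- the determinant in the plane -/
theorem det_E2 (L : E 2 →L[ℝ] E 2) :
    L.det = (L (EuclideanSpace.single 0 1)) 0 * (L (EuclideanSpace.single 1 1)) 1 -
      (L (EuclideanSpace.single 1 1)) 0 * (L (EuclideanSpace.single 0 1)) 1 := by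
  rw [ContinuousLinearMap.det,
    ← LinearMap.det_toMatrix (EuclideanSpace.basisFun (Fin 2) ℝ).toBasis, Matrix.det_fin_two]
  simp [LinearMap.toMatrix_apply]

/-- the map for the first basis vector -/
noncomputable def Fk (k : E 2 → ℝ) (s : ℝ) (x : E 2) : E 2 :=
  !₂[k (zf 1 s • x), Real.arcsin (s * x 0)]

theorem sph_sq (θ : Sph 2) : (θ : E 2) 0 ^ 2 + (θ : E 2) 1 ^ 2 = 1 := by
  have h := norm_sph θ
  rw [EuclideanSpace.norm_eq, Real.sqrt_eq_one] at h
  simpa [Fin.sum_univ_two] using h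

theorem Ax_zero (θ : Sph 2) (z : E 2) :
    Ax θ z 0 = z 0 * (θ : E 2) 0 + z 1 * (θ : E 2) 1 := by
  simp [Ax, PiLp.inner_apply, Fin.sum_univ_two]
  ring

theorem Ax_one (θ : Sph 2) (z : E 2) :
    Ax θ z 1 = -(z 0 * (θ : E 2) 1) + z 1 * (θ : E 2) 0 := by
  simp [Ax, Jr, PiLp.inner_apply, Fin.sum_univ_two]
  ring

/-- the rotation -/
noncomputable def Al (θ : Sph 2) : E 2 →ₗ[ℝ] E 2 where
  toFun z := Ax θ z
  map_add' x y := by
    ext i; fin_cases i
    · simp [Ax_zero]; ring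
    · simp [Ax_one]; ring
  map_smul' c x := by
    ext i; fin_cases i
    · simp [Ax_zero]; ring
    · simp [Ax_one]; ring

theorem Al_norm (θ : Sph 2) (z : E 2) : ‖Al θ z‖ = ‖z‖ := by
  rw [EuclideanSpace.norm_eq, EuclideanSpace.norm_eq]
  congr 1
  simp only [Fin.sum_univ_two, Real.norm_eq_abs, sq_abs]
  have h0 : Al θ z 0 = z 0 * (θ : E 2) 0 + z 1 * (θ : E 2) 1 := Ax_zero θ z
  have h1 : Al θ z 1 = -(z 0 * (θ : E 2) 1) + z 1 * (θ : E 2) 0 := Ax_one θ z
  rw [h0, h1]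
  have h := sph_sq θ
  linear_combination (z 0 ^ 2 + z 1 ^ 2) * h

/-- the rotation as an isometry -/
noncomputable def Ai (θ : Sph 2) : E 2 ≃ₗᵢ[ℝ] E 2 :=
  LinearIsometry.toLinearIsometryEquiv ⟨Al θ, Al_norm θ⟩ rfl

theorem Ai_apply (θ : Sph 2) (z : E 2) : Ai θ z = Ax θ z := rfl

theorem Ph0_eq (k : E 2 → ℝ) (s : ℝ) (θ : Sph 2) : Ph0 k s θ = Fk k s ∘ (Ai θ) := by
  funext y
  have h1 : Ax θ (zf 1 s • y) = zf 1 s • Ai θ y := (Al θ).map_smul _ _
  have h2 : inner ℝ y (θ : E 2) = Ai θ y 0 := rfl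
  simp only [Ph0, Fk, Function.comp, h1, h2]

theorem det_Ai (θ : Sph 2) : ((Ai θ).toContinuousLinearEquiv : E 2 →L[ℝ] E 2).det = 1 := by
  rw [det_E2]
  have h0 : ∀ z, ((Ai θ).toContinuousLinearEquiv : E 2 →L[ℝ] E 2) z = Ax θ z := fun z => rfl
  simp only [h0, Ax_zero, Ax_one]
  simp
  have := sph_sq θ
  linarith

theorem inner_eq (k : E 2 → ℝ) (s : ℝ) (θ : Sph 2) :
    ∫ y in ball (0 : E 2) 1, (fderiv ℝ (Ph0 k s θ) y).det =
      ∫ x in ball (0 : E 2) 1, (fderiv ℝ (Fk k s) x).det := by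
  have h1 : ∀ y, (fderiv ℝ (Ph0 k s θ) y).det = (fderiv ℝ (Fk k s) (Ai θ y)).det := by
    intro y
    rw [Ph0_eq]
    have h2 : fderiv ℝ (Fk k s ∘ (Ai θ)) y =
        (fderiv ℝ (Fk k s) (Ai θ y)).comp ((Ai θ).toContinuousLinearEquiv : E 2 →L[ℝ] E 2) :=
      (Ai θ).toContinuousLinearEquiv.comp_right_fderiv (f := Fk k s) (x := y)
    rw [h2]
    have h3 : ((fderiv ℝ (Fk k s) (Ai θ y)).comp
        ((Ai θ).toContinuousLinearEquiv : E 2 →L[ℝ] E 2)).det =
        (fderiv ℝ (Fk k s) (Ai θ y)).det *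
          ((Ai θ).toContinuousLinearEquiv : E 2 →L[ℝ] E 2).det := by
      simp only [ContinuousLinearMap.det]
      exact LinearMap.det_comp _ _
    rw [h3, det_Ai, mul_one]
  simp only [h1]
  have h4 : ball (0 : E 2) 1 = (Ai θ) ⁻¹' ball (0 : E 2) 1 := by
    rw [LinearIsometryEquiv.preimage_ball]; simp
  conv_lhs => rw [h4]
  exact (LinearIsometryEquiv.measurePreserving (Ai θ)).setIntegral_preimage_emb
    (Ai θ).toHomeomorph.measurableEmbedding (fun x => (fderiv ℝ (Fk k s) x).det) (ball 0 1)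

/-- the integrand in the coordinates -/
noncomputable def gk (k : E 2 → ℝ) (s : ℝ) (p : ℝ × ℝ) : ℝ :=
  -(s * (√(1 - (s * p.1) ^ 2))⁻¹ * deriv (fun t => k (zf 1 s • !₂[p.1, t])) p.2)

theorem abs_lt_of_ball {x : E 2} (hx : x ∈ ball (0 : E 2) 1) : x 0 ^ 2 + x 1 ^ 2 < 1 := by
  rw [mem_ball_zero_iff, EuclideanSpace.norm_eq, Real.sqrt_lt' one_pos] at hx
  simpa [Fin.sum_univ_two] using hx

theorem det_Fk (k : E 2 → ℝ) {s : ℝ} (hs0 : 0 < s) (hs1 : s < 1) {x : E 2}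
    (hx : x ∈ ball (0 : E 2) 1) (hd : DifferentiableAt ℝ (fun x => k (zf 1 s • x)) x) :
    (fderiv ℝ (Fk k s) x).det = gk k s (x 0, x 1) := by
  have hlt := abs_lt_of_ball hx
  have hsx : (s * x 0) ^ 2 < 1 := by
    have h1 : x 0 ^ 2 < 1 := by nlinarith [sq_nonneg (x 1)]
    have h2 : s ^ 2 < 1 := by nlinarith
    rw [mul_pow]
    nlinarith [sq_nonneg (x 0), sq_nonneg s]
  have hne1 : s * x 0 ≠ -1 := by intro h; rw [h] at hsx; norm_num at hsx
  have hne2 : s * x 0 ≠ 1 := by intro h; rw [h] at hsx; norm_num at hsx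
  have hp0 : HasFDerivAt (fun x : E 2 => x 0) (EuclideanSpace.proj (𝕜 := ℝ) (0 : Fin 2) : E 2 →L[ℝ] ℝ) x :=
    (EuclideanSpace.proj (𝕜 := ℝ) (0 : Fin 2) : E 2 →L[ℝ] ℝ).hasFDerivAt
  have ha : HasFDerivAt (fun x : E 2 => Real.arcsin (s * x 0))
      ((1 / √(1 - (s * x 0) ^ 2)) • (s • (EuclideanSpace.proj (𝕜 := ℝ) (0 : Fin 2) : E 2 →L[ℝ] ℝ))) x :=
    HasDerivAt.comp_hasFDerivAt (h₂ := Real.arcsin) (f := fun x : E 2 => s * x 0) x
      (Real.hasDerivAt_arcsin hne1 hne2) (hp0.const_mul s)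
  have hF : DifferentiableAt ℝ (Fk k s) x := by
    rw [differentiableAt_euclidean]
    intro i
    fin_cases i
    · exact hd
    · exact ha.differentiableAt
  have hc0 : ∀ v, (fderiv ℝ (Fk k s) x v) 0 = fderiv ℝ (fun x => k (zf 1 s • x)) x v := by
    intro v
    have h1 : HasFDerivAt (fun x => k (zf 1 s • x))
        ((EuclideanSpace.proj (𝕜 := ℝ) (0 : Fin 2) : E 2 →L[ℝ] ℝ).comp (fderiv ℝ (Fk k s) x)) x :=
      (EuclideanSpace.proj (𝕜 := ℝ) (0 : Fin 2) : E 2 →L[ℝ] ℝ).hasFDerivAt.comp x hF.hasFDerivAt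
    rw [h1.fderiv]; rfl
  have hc1 : ∀ v, (fderiv ℝ (Fk k s) x v) 1 = 1 / √(1 - (s * x 0) ^ 2) * (s * v 0) := by
    intro v
    have h1 : HasFDerivAt (fun x : E 2 => Real.arcsin (s * x 0))
        ((EuclideanSpace.proj (𝕜 := ℝ) (1 : Fin 2) : E 2 →L[ℝ] ℝ).comp (fderiv ℝ (Fk k s) x)) x :=
      (EuclideanSpace.proj (𝕜 := ℝ) (1 : Fin 2) : E 2 →L[ℝ] ℝ).hasFDerivAt.comp x hF.hasFDerivAt
    have h2 := h1.unique ha
    have h3 := congrArg (fun L : E 2 →L[ℝ] ℝ => L v) h2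
    simpa using h3
  have hsl : deriv (fun t => k (zf 1 s • !₂[x 0, t])) (x 1) =
      fderiv ℝ (fun x => k (zf 1 s • x)) x (EuclideanSpace.single 1 1) := by
    have hcv : HasDerivAt (fun t : ℝ => (!₂[x 0, t] : E 2)) (EuclideanSpace.single 1 1) (x 1) := by
      have h1 : (fun t : ℝ => (!₂[x 0, t] : E 2)) =
          fun t => !₂[x 0, 0] + t • (EuclideanSpace.single 1 1 : E 2) := by
        funext t; ext i; fin_cases i <;> simp
      rw [h1]
      have h2 : HasDerivAt (fun t : ℝ => t • (EuclideanSpace.single 1 1 : E 2))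
          ((1 : ℝ) • (EuclideanSpace.single 1 1 : E 2)) (x 1) :=
        (hasDerivAt_id (x 1)).smul_const _
      rw [one_smul] at h2
      exact h2.const_add _
    have hx' : (!₂[x 0, x 1] : E 2) = x := by ext i; fin_cases i <;> simp
    have hd' : HasFDerivAt (fun x => k (zf 1 s • x)) (fderiv ℝ (fun x => k (zf 1 s • x)) x)
        (!₂[x 0, x 1] : E 2) := by rw [hx']; exact hd.hasFDerivAt
    exact (hd'.comp_hasDerivAt (x 1) hcv).deriv
  rw [det_E2]
  simp only [hc0, hc1, gk, hsl]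
  simp
  ring

/-- the disc in the coordinates -/
def Dd : Set (ℝ × ℝ) := {p | p.1 ^ 2 + p.2 ^ 2 < 1}

theorem meas_Dd : MeasurableSet Dd :=
  (isOpen_lt (by fun_prop) (by fun_prop)).measurableSet

/-- the coordinates -/
noncomputable def eq2 : E 2 ≃ᵐ ℝ × ℝ :=
  (MeasurableEquiv.toLp 2 (Fin 2 → ℝ)).symm.trans MeasurableEquiv.finTwoArrow

theorem eq2_apply (x : E 2) : eq2 x = (x 0, x 1) := rfl

theorem eq2_pres : MeasurePreserving eq2 (volume : Measure (E 2)) (volume : Measure (ℝ × ℝ)) :=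
  (EuclideanSpace.volume_preserving_symm_measurableEquiv_toLp (Fin 2)).trans
    (volume_preserving_finTwoArrow ℝ)

theorem eq2_ball : eq2 ⁻¹' Dd = ball (0 : E 2) 1 := by
  ext x
  rw [mem_preimage, eq2_apply, mem_ball_zero_iff, EuclideanSpace.norm_eq, Real.sqrt_lt' one_pos]
  simp [Dd, Fin.sum_univ_two]

theorem vol_Dd : volume Dd ≠ ⊤ := by
  rw [← eq2_pres.measure_preimage_equiv, eq2_ball]
  exact measure_ball_lt_top.ne

theorem lip_k {k : E 2 → ℝ} {K : NNReal} (hk : LipschitzWith K k) (c a : ℝ) :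
    LipschitzWith (K * ‖c‖₊) (fun t => k (c • !₂[a, t])) := by
  apply LipschitzWith.of_dist_le_mul
  intro t u
  refine (hk.dist_le_mul _ _).trans ?_
  have h1 : dist (c • (!₂[a, t] : E 2)) (c • (!₂[a, u] : E 2)) = |c| * dist t u := by
    rw [dist_smul₀, EuclideanSpace.dist_eq]
    simp [Fin.sum_univ_two, Real.sqrt_sq_eq_abs, Real.dist_eq, sq_abs]
  rw [h1]
  simp [mul_assoc]

theorem gk_int {k : E 2 → ℝ} {K : NNReal} (hk : LipschitzWith K k) {s : ℝ} (hs0 : 0 < s)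
    (hs1 : s < 1) : IntegrableOn (gk k s) Dd := by
  have hm : Measurable (gk k s) := by
    unfold gk
    have h1 : Measurable (fun p : ℝ × ℝ => deriv ((fun a t => k (zf 1 s • !₂[a, t])) p.1) p.2) := by
      refine measurable_deriv_with_param (f := fun a t => k (zf 1 s • !₂[a, t])) ?_
      refine hk.continuous.comp (g := k)
        (f := fun p : ℝ × ℝ => (zf 1 s • !₂[p.1, p.2] : E 2)) ?_
      have h3 : Continuous (fun p : ℝ × ℝ => (!₂[p.1, p.2] : E 2)) := by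
        apply (PiLp.continuous_toLp 2 _).comp
        apply continuous_pi
        intro i
        fin_cases i
        · exact continuous_fst
        · exact continuous_snd
      exact h3.const_smul (zf 1 s)
    have h2 : Measurable (fun p : ℝ × ℝ => s * (√(1 - (s * p.1) ^ 2))⁻¹) := by fun_prop
    exact (h2.mul h1).neg
  refine Measure.integrableOn_of_bounded vol_Dd hm.aestronglyMeasurable
    (M := s * (√(1 - s ^ 2))⁻¹ * (K * ‖zf 1 s‖₊ : NNReal)) ?_
  rw [ae_restrict_iff' meas_Dd]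
  refine Eventually.of_forall fun p hp => ?_
  have hp' : p.1 ^ 2 + p.2 ^ 2 < 1 := hp
  rw [gk, norm_neg, norm_mul, norm_mul]
  have h0 : 0 < 1 - s ^ 2 := by nlinarith
  have h1 : ‖deriv (fun t => k (zf 1 s • !₂[p.1, t])) p.2‖ ≤ (K * ‖zf 1 s‖₊ : NNReal) :=
    norm_deriv_le_of_lipschitz (lip_k hk _ _)
  have h2 : ‖(√(1 - (s * p.1) ^ 2))⁻¹‖ ≤ (√(1 - s ^ 2))⁻¹ := by
    rw [norm_inv, Real.norm_of_nonneg (Real.sqrt_nonneg _)]
    apply inv_anti₀ (Real.sqrt_pos.2 h0)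
    apply Real.sqrt_le_sqrt
    have : p.1 ^ 2 ≤ 1 := by nlinarith [sq_nonneg p.2]
    nlinarith [sq_nonneg s]
  rw [Real.norm_of_nonneg hs0.le]
  gcongr

theorem slice {k : E 2 → ℝ} {K : NNReal} (hk : LipschitzWith K k)
    (hodd : ∀ z : E 2, k !₂[z 0, -(z 1)] = -k z) (s a : ℝ) :
    ∫ b, Dd.indicator (gk k s) (a, b) = (Ioo (-1 : ℝ) 1).indicator (fun a =>
      -(2 * (s * (√(1 - (s * a) ^ 2))⁻¹ * k !₂[zf 1 s * a, zf 1 s * √(1 - a ^ 2)]))) a := by
  by_cases ha : a ∈ Ioo (-1 : ℝ) 1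
  · rw [indicator_of_mem ha]
    have h1 : 0 < 1 - a ^ 2 := by nlinarith [ha.1, ha.2]
    have h2 : ∀ b, Dd.indicator (gk k s) (a, b) =
        (Ioo (-√(1 - a ^ 2)) (√(1 - a ^ 2))).indicator (fun b => gk k s (a, b)) b := by
      intro b
      have hiff : (a, b) ∈ Dd ↔ b ∈ Ioo (-√(1 - a ^ 2)) (√(1 - a ^ 2)) := by
        rw [mem_Ioo, ← abs_lt, Real.lt_sqrt (abs_nonneg b), sq_abs]
        constructor
        · intro h
          have h' : a ^ 2 + b ^ 2 < 1 := h
          linarith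
        · intro h
          change a ^ 2 + b ^ 2 < 1
          linarith
      by_cases hb : (a, b) ∈ Dd
      · rw [indicator_of_mem hb, indicator_of_mem (hiff.1 hb)]
      · rw [indicator_of_notMem hb, indicator_of_notMem (fun h => hb (hiff.2 h))]
    simp only [h2]
    rw [integral_indicator measurableSet_Ioo, ← integral_Ioc_eq_integral_Ioo,
      ← intervalIntegral.integral_of_le (by linarith [Real.sqrt_nonneg (1 - a ^ 2)])]
    simp only [gk]
    rw [intervalIntegral.integral_neg, intervalIntegral.integral_const_mul,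
      (((lip_k hk (zf 1 s) a).lipschitzOnWith (s := uIcc (-√(1 - a ^ 2)) (√(1 - a ^ 2)))
        ).absolutelyContinuousOnInterval).integral_deriv_eq_sub]
    have e1 : (zf 1 s • (!₂[a, √(1 - a ^ 2)] : E 2)) =
        !₂[zf 1 s * a, zf 1 s * √(1 - a ^ 2)] := by
      ext i; fin_cases i <;> simp
    have e2 : (zf 1 s • (!₂[a, -√(1 - a ^ 2)] : E 2)) =
        !₂[(!₂[zf 1 s * a, zf 1 s * √(1 - a ^ 2)] : E 2) 0,
          -((!₂[zf 1 s * a, zf 1 s * √(1 - a ^ 2)] : E 2) 1)] := by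
      ext i; fin_cases i <;> simp
    rw [e1, e2, hodd]
    ring
  · rw [indicator_of_notMem ha]
    have h2 : ∀ b, Dd.indicator (gk k s) (a, b) = 0 := by
      intro b
      apply indicator_of_notMem
      intro h
      apply ha
      have h' : a ^ 2 + b ^ 2 < 1 := h
      constructor <;> nlinarith [sq_nonneg b]
    simp only [h2, integral_zero]

theorem val {k : E 2 → ℝ} {K : NNReal} (hk : LipschitzWith K k)
    (hodd : ∀ z : E 2, k !₂[z 0, -(z 1)] = -k z) {s : ℝ} (hs0 : 0 < s) (hs1 : s < 1) :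
    ∫ x in ball (0 : E 2) 1, (fderiv ℝ (Fk k s) x).det =
      -(2 * ∫ x in (-1 : ℝ)..1, s * (√(1 - (s * x) ^ 2))⁻¹ *
        k !₂[zf 1 s * x, zf 1 s * √(1 - x ^ 2)]) := by
  have hl : LipschitzWith (K * ‖zf 1 s‖₊) (fun x : E 2 => k (zf 1 s • x)) :=
    hk.comp (lipschitzWith_smul (zf 1 s))
  have h1 : ∫ x in ball (0 : E 2) 1, (fderiv ℝ (Fk k s) x).det =
      ∫ x in ball (0 : E 2) 1, gk k s (eq2 x) := by
    apply setIntegral_congr_ae measurableSet_ball
    filter_upwards [hl.ae_differentiableAt (μ := volume)] with x hx hxb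
    exact det_Fk k hs0 hs1 hxb hx
  rw [h1, ← eq2_ball, eq2_pres.setIntegral_preimage_emb eq2.measurableEmbedding,
    ← integral_indicator meas_Dd, Measure.volume_eq_prod, integral_prod _ (by
      rw [← Measure.volume_eq_prod]
      exact (integrable_indicator_iff meas_Dd).2 (gk_int hk hs0 hs1))]
  simp only [slice hk hodd]
  rw [integral_indicator measurableSet_Ioo, ← integral_Ioc_eq_integral_Ioo,
    ← intervalIntegral.integral_of_le (by norm_num), intervalIntegral.integral_neg,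
    intervalIntegral.integral_const_mul]

/-- VALP -/
theorem main : S_VALP := by
  intro k hk hodd s hs0 hs1
  obtain ⟨K, hk⟩ := hk
  have : IsProbabilityMeasure (sg 2) := (Pool.Agent.N979.CP.Fin.sph 1 le_rfl).1
  simp only [inner_eq, val hk hodd hs0 hs1]
  rw [integral_const]
  simp

end Pool.Agent.N530.P1
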