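import Pool.Agent.N709.UM.Stm3

/-!
# UM3/SEL3 (helper530), after Pool/Agent/N219/UM2SEL2.lean (helper219)
-/

set_option autoImplicit false

open Filter Topology

universe u

namespace Pool.Agent.N530.UM3SEL3

open Pool.Agent.N709.UM

private theorem nonneg {G : Type u} [Group G] {ρ : G → ℝ} (h : PN ρ) (g : G) : 0 ≤ ρ g := by
  have h1 := h.mul g g⁻¹
  rw [mul_inv_cancel, h.one, h.inv] at h1
  linarith

private theorem dU_mul {G : Type u} [Group G] {ρ : G → ℝ} (h : PN ρ) (U : Subgroup G) (v g : G) :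
    dU ρ U g - ρ v ≤ dU ρ U (v * g) := by
  unfold dU
  have : Nonempty U := ⟨1⟩
  refine le_ciInf fun u => ?_
  have h1 : (⨅ u : U, ρ (g * u)) ≤ ρ (g * u) :=
    ciInf_le ⟨0, by rintro _ ⟨x, rfl⟩; exact nonneg h _⟩ u
  have h2 := h.mul v⁻¹ (v * g * u)
  have e : v⁻¹ * (v * g * u) = g * u := by group
  rw [e, h.inv] at h2
  linarith

section

variable {G : Type u} [Group G] [TopologicalSpace G]

private theorem tendsto_one' {ρ : G → ℝ} (hG : Gen ρ) (F : Filter G) (w : G → G)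
    (h : ∀ t > 0, ∀ᶠ b in F, ρ (w b) < t) : Tendsto w F (𝓝 1) := by
  intro U hU
  obtain ⟨r, hr, h1⟩ := hG.gen U hU
  exact (h r hr).mono fun b hb => h1 _ hb

private theorem small {ρ : G → ℝ} (hG : Gen ρ) {F : Filter G} {w : G → G}
    (h : Tendsto w F (𝓝 1)) {t : ℝ} (ht : 0 < t) : ∀ᶠ b in F, ρ (w b) < t := by
  have h1 : Tendsto (fun b => ρ (w b)) F (𝓝 (ρ 1)) := (hG.cont.tendsto 1).comp h
  rw [hG.pn.one] at h1
  exact h1.eventually_lt_const ht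

variable [IsTopologicalGroup G]

private theorem conj_tendsto {ρ : G → ℝ} (hG : Gen ρ) {F : Ultrafilter G} (hAI : AI ρ F)
    {w : G → G} {x : G} (h : Tendsto w F (𝓝 x)) :
    Tendsto (fun b => b * w b * b⁻¹) F (𝓝 x) := by
  have h1 : Tendsto (fun b => w b * x⁻¹) F (𝓝 1) := by
    have h0 := h.mul_const x⁻¹
    rw [mul_inv_cancel] at h0
    exact h0
  have h2 : Tendsto (fun b : G => b * (w b * x⁻¹) * b⁻¹) F (𝓝 1) := by
    refine tendsto_one' hG _ _ fun t ht => ?_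
    have h3 := small hG h1 (half_pos ht)
    have h4 : ∀ᶠ b in (F : Filter G), ∀ c, ρ (b * c * b⁻¹) ≤ ρ c + t / 2 ∧
        ρ (b⁻¹ * c * b) ≤ ρ c + t / 2 := hAI.inv _ (half_pos ht)
    filter_upwards [h3, h4] with b hb hb'
    have := (hb' (w b * x⁻¹)).1
    linarith
  have h5 : Tendsto (fun b : G => b * x * b⁻¹ * x⁻¹) F (𝓝 1) := by
    refine tendsto_one' hG _ _ fun t ht => ?_
    have h6 : ∀ᶠ b in (F : Filter G), ρ (b * x * b⁻¹ * x⁻¹) < t ∧ ρ (b⁻¹ * x * b * x⁻¹) < t :=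
      hAI.com t ht x
    filter_upwards [h6] with b hb
    exact hb.1
  have h7 := (h2.mul h5).mul_const x
  rw [one_mul, one_mul] at h7
  refine h7.congr fun b => ?_
  group

private theorem conj_pow_tendsto {ρ : G → ℝ} (hG : Gen ρ) {F : Ultrafilter G} (hAI : AI ρ F)
    {w : G → G} {x : G} (h : Tendsto w F (𝓝 x)) (M : ℕ) :
    Tendsto (fun b => b ^ M * w b * (b ^ M)⁻¹) F (𝓝 x) := by
  induction M with
  | zero => simpa using h
  | succ M ih =>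
    refine (conj_tendsto hG hAI ih).congr fun b => ?_
    rw [pow_succ' b M, mul_inv_rev]
    simp only [mul_assoc]

end

private theorem AI_inv {G : Type u} [Group G] {ρ : G → ℝ} {F : Ultrafilter G} (hAI : AI ρ F) :
    AI ρ (F.map fun x => x⁻¹) := by
  constructor
  · intro t ht
    rw [Ultrafilter.mem_map]
    refine Filter.mem_of_superset (hAI.inv t ht) fun x hx => ?_
    intro c
    rw [inv_inv]
    exact ⟨(hx c).2, (hx c).1⟩
  · intro t ht c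
    rw [Ultrafilter.mem_map]
    refine Filter.mem_of_superset (hAI.com t ht c) fun x hx => ?_
    refine ⟨?_, ?_⟩
    · rw [inv_inv]; exact hx.2
    · rw [inv_inv]; exact hx.1

theorem sel3 : Pool.Agent.N709.UM.Pwc.{u} → Pool.Agent.N709.UM.Nl3.{u} →
    Pool.Agent.N709.UM.Sel3.{u} := by
  intro hP hN G _ _ _ ρ hG F hAI e hE D hD ι _ U r h q s hs t ht k
  have hpn := hG.pn
  have ht4 : 0 < t / 4 := by linarith
  have hex : ∀ i, ∃ s', s i < s' ∧ s' < dU ρ (U i) (h i * q i) ∧ s' < r i := by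
    intro i
    obtain ⟨s', h1, h2⟩ := exists_between (lt_min (hs i).2.1 (hs i).2.2)
    exact ⟨s', h1, h2.trans_le (min_le_left _ _), h2.trans_le (min_le_right _ _)⟩
  choose s' hs1 hs2 hs3 using hex
  have E1 : ∀ᶠ a in (F : Filter G), ∀ᶠ b in (F : Filter G), e ≤ ρ (a * b⁻¹) := hE
  have E2 : ∀ᶠ a in (F : Filter G), ∀ c, ρ (a * c * a⁻¹) ≤ ρ c + t / 4 ∧
      ρ (a⁻¹ * c * a) ≤ ρ c + t / 4 := hAI.inv _ ht4
  have E3 : ∀ᶠ a in (F : Filter G), ∀ c ∈ D, ρ (a * c * a⁻¹ * c⁻¹) < t / 4 ∧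
      ρ (a⁻¹ * c * a * c⁻¹) < t / 4 :=
    (eventually_all_finite hD).mpr (fun c _ => hAI.com _ ht4 c)
  have E4 : ∀ᶠ a in (F : Filter G), ∀ i, ∀ M ∈ Set.Icc 1 k, ∀ᶠ b in (F : Filter G),
      s' i < dU ρ (U i) (h i * (a ^ M * (b ^ M)⁻¹) * q i) := by
    refine eventually_all.mpr fun i => ?_
    refine (eventually_all_finite (Set.finite_Icc 1 k)).mpr (fun M _ => ?_)
    exact hN G ρ hG F hAI (U i) (r i) (hs i).1 M (h i) (q i) (s' i) (hs2 i) (hs3 i)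
  have E4' : ∀ᶠ a in (F : Filter G), ∀ i, ∀ M ∈ Set.Icc 1 k, ∀ᶠ b in (F : Filter G),
      s' i < dU ρ (U i) (h i * ((a ^ M)⁻¹ * b ^ M) * q i) := by
    refine eventually_all.mpr fun i => ?_
    refine (eventually_all_finite (Set.finite_Icc 1 k)).mpr (fun M _ => ?_)
    have h1 := hN G ρ hG (F.map fun x => x⁻¹) (AI_inv hAI) (U i) (r i) (hs i).1 M (h i) (q i)
      (s' i) (hs2 i) (hs3 i)
    rw [Ultrafilter.mem_map] at h1
    have h2 : ∀ᶠ a in (F : Filter G), ∀ᶠ b in (F : Filter G),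
        s' i < dU ρ (U i) (h i * ((a⁻¹) ^ M * ((b⁻¹) ^ M)⁻¹) * q i) := h1
    filter_upwards [h2] with a ha
    filter_upwards [ha] with b hb
    rw [inv_pow, inv_pow, inv_inv] at hb
    exact hb
  obtain ⟨a, h1, h2, h3, h4, h4'⟩ := (E1.and (E2.and (E3.and (E4.and E4')))).exists
  have E5 : ∀ᶠ b in (F : Filter G), ∀ i, ∀ M ∈ Set.Icc 1 k,
      s' i < dU ρ (U i) (h i * (a ^ M * (b ^ M)⁻¹) * q i) := by
    refine eventually_all.mpr fun i => ?_
    exact (eventually_all_finite (Set.finite_Icc 1 k)).mpr (fun M hM => h4 i M hM)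
  have E5' : ∀ᶠ b in (F : Filter G), ∀ i, ∀ M ∈ Set.Icc 1 k,
      s' i < dU ρ (U i) (h i * ((a ^ M)⁻¹ * b ^ M) * q i) := by
    refine eventually_all.mpr fun i => ?_
    exact (eventually_all_finite (Set.finite_Icc 1 k)).mpr (fun M hM => h4' i M hM)
  have hv : ∀ M : ℕ, Tendsto (fun b : G => (a * b⁻¹) ^ M * b ^ M * (a ^ M)⁻¹) F (𝓝 1) := by
    intro M
    have h5 := (hP G ρ hG F hAI M a).mul_const (a ^ M)⁻¹
    rw [mul_inv_cancel] at h5
    exact h5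
  have hcj : ∀ {w : G → G} (g : G), Tendsto w F (𝓝 1) →
      Tendsto (fun b => g * w b * g⁻¹) F (𝓝 1) := by
    intro w g hw
    have h5 := (hw.const_mul g).mul_const g⁻¹
    rw [mul_one, mul_inv_cancel] at h5
    exact h5
  have E6 : ∀ᶠ b in (F : Filter G), ∀ i, ∀ M ∈ Set.Icc 1 k,
      ρ (h i * ((a * b⁻¹) ^ M * b ^ M * (a ^ M)⁻¹) * (h i)⁻¹) < s' i - s i := by
    refine eventually_all.mpr fun i => ?_
    refine (eventually_all_finite (Set.finite_Icc 1 k)).mpr (fun M _ => ?_)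
    exact small hG (hcj (h i) (hv M)) (by linarith [hs1 i])
  have hκ : ∀ M : ℕ, Tendsto (fun b : G => b ^ M * ((a ^ M)⁻¹ *
      ((a * b⁻¹) ^ M * b ^ M * (a ^ M)⁻¹)⁻¹) * (b ^ M)⁻¹ * a ^ M) F (𝓝 1) := by
    intro M
    have h5 : Tendsto (fun b : G => (a ^ M)⁻¹ * ((a * b⁻¹) ^ M * b ^ M * (a ^ M)⁻¹)⁻¹) F
        (𝓝 (a ^ M)⁻¹) := by
      have h6 := (hv M).inv.const_mul (a ^ M)⁻¹
      rw [inv_one, mul_one] at h6
      exact h6
    have h7 := (conj_pow_tendsto hG hAI h5 M).mul_const (a ^ M)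
    rw [inv_mul_cancel] at h7
    exact h7
  have E6' : ∀ᶠ b in (F : Filter G), ∀ i, ∀ M ∈ Set.Icc 1 k,
      ρ (h i * (b ^ M * ((a ^ M)⁻¹ * ((a * b⁻¹) ^ M * b ^ M * (a ^ M)⁻¹)⁻¹) * (b ^ M)⁻¹ * a ^ M) *
        (h i)⁻¹) < s' i - s i := by
    refine eventually_all.mpr fun i => ?_
    refine (eventually_all_finite (Set.finite_Icc 1 k)).mpr (fun M _ => ?_)
    exact small hG (hcj (h i) (hκ M)) (by linarith [hs1 i])
  obtain ⟨b, g1, g2, g3, g5, g5', g6, g6'⟩ :=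
    (h1.and (E2.and (E3.and (E5.and (E5'.and (E6.and E6')))))).exists
  refine ⟨a * b⁻¹, g1, ?_, ?_, ?_⟩
  · intro c
    constructor
    · have e : a * b⁻¹ * c * (a * b⁻¹)⁻¹ = a * (b⁻¹ * c * b) * a⁻¹ := by group
      rw [e]
      have i1 := (h2 (b⁻¹ * c * b)).1
      have i2 := (g2 c).2
      linarith
    · have e : (a * b⁻¹)⁻¹ * c * (a * b⁻¹) = b * (a⁻¹ * c * a) * b⁻¹ := by group
      rw [e]
      have i1 := (g2 (a⁻¹ * c * a)).1
      have i2 := (h2 c).2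
      linarith
  · intro c hc
    constructor
    · have e : a * b⁻¹ * c * (a * b⁻¹)⁻¹ * c⁻¹
          = (a * (b⁻¹ * c * b * c⁻¹) * a⁻¹) * (a * c * a⁻¹ * c⁻¹) := by group
      rw [e]
      have i0 := hpn.mul (a * (b⁻¹ * c * b * c⁻¹) * a⁻¹) (a * c * a⁻¹ * c⁻¹)
      have i1 := (h2 (b⁻¹ * c * b * c⁻¹)).1
      have i2 := (g3 c hc).2
      have i3 := (h3 c hc).1
      linarith
    · have e : (a * b⁻¹)⁻¹ * c * (a * b⁻¹) * c⁻¹
          = (b * (a⁻¹ * c * a * c⁻¹) * b⁻¹) * (b * c * b⁻¹ * c⁻¹) := by group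
      rw [e]
      have i0 := hpn.mul (b * (a⁻¹ * c * a * c⁻¹) * b⁻¹) (b * c * b⁻¹ * c⁻¹)
      have i1 := (g2 (a⁻¹ * c * a * c⁻¹)).1
      have i2 := (h3 c hc).2
      have i3 := (g3 c hc).1
      linarith
  · intro i M hM1 hMk
    have j1 := g5 i M ⟨hM1, hMk⟩
    have j2 := g6 i M ⟨hM1, hMk⟩
    have j1' := g5' i M ⟨hM1, hMk⟩
    have j2' := g6' i M ⟨hM1, hMk⟩
    constructor
    · have e : h i * (a * b⁻¹) ^ M * q i =
          (h i * ((a * b⁻¹) ^ M * b ^ M * (a ^ M)⁻¹) * (h i)⁻¹) *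
            (h i * (a ^ M * (b ^ M)⁻¹) * q i) := by
        generalize (a * b⁻¹) ^ M = y
        generalize a ^ M = a'
        generalize b ^ M = b'
        group
      rw [e]
      have := dU_mul hpn (U i) (h i * ((a * b⁻¹) ^ M * b ^ M * (a ^ M)⁻¹) * (h i)⁻¹)
        (h i * (a ^ M * (b ^ M)⁻¹) * q i)
      linarith
    · have e : h i * ((a * b⁻¹) ^ M)⁻¹ * q i =
          (h i * (b ^ M * ((a ^ M)⁻¹ * ((a * b⁻¹) ^ M * b ^ M * (a ^ M)⁻¹)⁻¹) * (b ^ M)⁻¹ *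
            a ^ M) * (h i)⁻¹) * (h i * ((a ^ M)⁻¹ * b ^ M) * q i) := by
        generalize (a * b⁻¹) ^ M = y
        generalize a ^ M = a'
        generalize b ^ M = b'
        group
      rw [e]
      have := dU_mul hpn (U i) (h i * (b ^ M * ((a ^ M)⁻¹ *
        ((a * b⁻¹) ^ M * b ^ M * (a ^ M)⁻¹)⁻¹) * (b ^ M)⁻¹ * a ^ M) * (h i)⁻¹)
        (h i * ((a ^ M)⁻¹ * b ^ M) * q i)
      linarith

end Pool.Agent.N530.UM3SEL3
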