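import Pool.Agent.N841.WS.Stm

/-!
# PROJECT WS, part INF: an infinite omega-bounded Hausdorff abelian group has at least `𝔠` elements
-/

set_option autoImplicit false

open Cardinal Topology TopologicalSpace Set Filter

namespace Pool.Agent.N530.WS

open Pool.Agent.N841.WS

/-- splitting of an open set -/
theorem split {X : Type} [TopologicalSpace X] [CompactSpace X] [T2Space X]
    (h : ∀ x : X, (𝓝[≠] x).NeBot) (U : {U : Set X // IsOpen U ∧ U.Nonempty}) :
    ∃ V : Bool → {U : Set X // IsOpen U ∧ U.Nonempty}, (∀ b, closure (V b).1 ⊆ U.1) ∧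
      Disjoint (closure (V true).1) (closure (V false).1) := by
  obtain ⟨x, hx⟩ := U.2.2
  have h1 : ∃ y ∈ U.1, y ≠ x := by
    have h2 : ({x}ᶜ ∩ U.1).Nonempty := by
      have := h x
      exact nonempty_of_mem (inter_mem_nhdsWithin {x}ᶜ (U.2.1.mem_nhds hx))
    obtain ⟨y, hyx, hy⟩ := h2
    exact ⟨y, hy, hyx⟩
  obtain ⟨y, hy, hyx⟩ := h1
  obtain ⟨A, hyA, hA, B, hxB, hB, hAB⟩ := exists_open_nhds_disjoint_closure hyx
  have key : ∀ (z : X) (W : Set X), z ∈ W → IsOpen W → z ∈ U.1 →
      ∃ V : Set X, IsOpen V ∧ z ∈ V ∧ closure V ⊆ W ∧ closure V ⊆ U.1 := by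
    intro z W hz hW hzU
    obtain ⟨V, hV1, hV2, hV3⟩ := exists_mem_nhds_isClosed_subset
      ((hW.inter U.2.1).mem_nhds ⟨hz, hzU⟩)
    have hcl : closure (interior V) ⊆ V := closure_minimal interior_subset hV2
    exact ⟨interior V, isOpen_interior, mem_interior_iff_mem_nhds.2 hV1,
      (hcl.trans hV3).trans inter_subset_left, (hcl.trans hV3).trans inter_subset_right⟩
  obtain ⟨V1, a1, a2, a3, a4⟩ := key y A hyA hA hy
  obtain ⟨V2, b1, b2, b3, b4⟩ := key x B hxB hB hx
  refine ⟨fun b => if b then ⟨V1, a1, ⟨y, a2⟩⟩ else ⟨V2, b1, ⟨x, b2⟩⟩, ?_, ?_⟩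
  · intro b
    cases b
    · simpa using b4
    · simpa using a4
  · simpa using hAB.mono (a3.trans subset_closure) (b3.trans subset_closure)

/-- a nonempty compact Hausdorff space without isolated points has at least `𝔠` points -/
theorem perfect_card {X : Type} [TopologicalSpace X] [CompactSpace X] [T2Space X] [Nonempty X]
    (h : ∀ x : X, (𝓝[≠] x).NeBot) : 𝔠 ≤ #X := by
  choose V hV hd using split h
  let W : List Bool → {U : Set X // IsOpen U ∧ U.Nonempty} := fun l =>
    List.rec (motive := fun _ => {U : Set X // IsOpen U ∧ U.Nonempty})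
      ⟨univ, isOpen_univ, univ_nonempty⟩ (fun b _ ih => V ih b) l
  have hW : ∀ b l, W (b :: l) = V (W l) b := fun _ _ => rfl
  let A : List Bool → Set X := fun l => closure (W l).1
  have hanti : CantorScheme.Antitone A := by
    intro l b
    exact (hV (W l) b).trans subset_closure
  have hdis : CantorScheme.Disjoint A := by
    intro l b b' hbb
    cases b <;> cases b'
    · exact absurd rfl hbb
    · exact (hd (W l)).symm
    · exact hd (W l)
    · exact absurd rfl hbb
  have hdom : ∀ f : ℕ → Bool, f ∈ (CantorScheme.inducedMap A).1 := by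
    intro f
    change (⋂ n : ℕ, A (PiNat.res f n)).Nonempty
    apply IsCompact.nonempty_iInter_of_sequence_nonempty_isCompact_isClosed
    · intro n
      exact hanti _ _
    · intro n
      exact (W _).2.2.mono subset_closure
    · exact isClosed_closure.isCompact
    · intro n
      exact isClosed_closure
  have hinj : Function.Injective (fun f : ℕ → Bool => (CantorScheme.inducedMap A).2 ⟨f, hdom f⟩) := by
    intro f g hfg
    exact congrArg Subtype.val (hdis.map_injective hfg)
  have hc : #(ℕ → Bool) = 𝔠 := by simp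
  rw [← hc]
  exact mk_le_of_injective hinj

/-- INF -/
theorem t_INF : S_INF := by
  intro G _ _ _ _ hO hI
  let f : ℕ ↪ G := Infinite.natEmbedding G
  let H : AddSubgroup G := (Finsupp.linearCombination ℤ f).toAddMonoidHom.range
  have hHc : (H : Set G).Countable := countable_range _
  let C : AddSubgroup G := H.topologicalClosure
  have hC : IsCompact (C : Set G) := hO _ hHc
  have : CompactSpace C := isCompact_iff_compactSpace.1 hC
  have hinf : Infinite C := by
    have hle : ∀ n, f n ∈ C := fun n => H.le_topologicalClosure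
      ⟨Finsupp.single n 1, by simp⟩
    exact Infinite.of_injective (fun n => (⟨f n, hle n⟩ : C)) (fun a b hab =>
      f.injective (congrArg Subtype.val hab))
  have hne : ∀ x : C, (𝓝[≠] x).NeBot := by
    intro x
    by_contra hx
    rw [not_neBot] at hx
    have hop : IsOpen ({x} : Set C) := by
      rwa [isOpen_singleton_iff_punctured_nhds]
    have h0 : IsOpen ({0} : Set C) := by
      have h1 : ({0} : Set C) = (fun y => y + x) ⁻¹' {x} := by
        ext y; simp
      rw [h1]
      exact hop.preimage (continuous_add_const x)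
    have hd : DiscreteTopology C := discreteTopology_of_isOpen_singleton_zero h0
    have hfin : Finite C := finite_of_compact_of_discrete
    exact _root_.not_finite C
  exact (perfect_card hne).trans (mk_subtype_le _)

end Pool.Agent.N530.WS
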